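import Mathlib

/-!
# A determinant/adjugate inequality for contractions (helper file for MP_19c155_gt)
-/

namespace Pool.Agent.Helper77.Star

open Finset Matrix

/-- the function `α e_{n-1} + β e_n` -/
def G (α β : ℝ) {n : ℕ} (s : Fin n → ℝ) : ℝ :=
  α * (∑ i, ∏ j ∈ univ.erase i, s j) + β * ∏ j, s j

theorem G_pair (α β : ℝ) {n : ℕ} (s : Fin n → ℝ) {i j : Fin n} (hij : i ≠ j) :
    G α β s = α * ((s i + s j) * ∏ k ∈ (univ.erase i).erase j, s k
        + s i * s j * ∑ k ∈ (univ.erase i).erase j, ∏ l ∈ ((univ.erase i).erase j).erase k, s l)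
      + β * (s i * s j * ∏ k ∈ (univ.erase i).erase j, s k) := by
  have hj : j ∈ univ.erase i := by simp [hij.symm]
  have hi : i ∈ univ.erase j := by simp [hij]
  have hcomm : (univ.erase i).erase j = (univ.erase j).erase i := Finset.erase_right_comm
  have h1 : ∏ k, s k = s i * s j * ∏ k ∈ (univ.erase i).erase j, s k := by
    rw [← Finset.mul_prod_erase univ s (Finset.mem_univ i), ← Finset.mul_prod_erase _ s hj]
    ring
  have h2 : ∏ k ∈ univ.erase i, s k = s j * ∏ k ∈ (univ.erase i).erase j, s k := by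
    rw [← Finset.mul_prod_erase _ s hj]
  have h3 : ∏ k ∈ univ.erase j, s k = s i * ∏ k ∈ (univ.erase i).erase j, s k := by
    rw [hcomm, ← Finset.mul_prod_erase _ s hi]
  have h4 : ∑ m, ∏ k ∈ univ.erase m, s k =
      (∏ k ∈ univ.erase i, s k) + ((∏ k ∈ univ.erase j, s k) +
        ∑ m ∈ (univ.erase i).erase j, ∏ k ∈ univ.erase m, s k) := by
    rw [← Finset.add_sum_erase univ (fun m => ∏ k ∈ univ.erase m, s k) (Finset.mem_univ i),
      ← Finset.add_sum_erase (univ.erase i) (fun m => ∏ k ∈ univ.erase m, s k) hj]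
  have h5 : ∀ m ∈ (univ.erase i).erase j, ∏ k ∈ univ.erase m, s k =
      s i * s j * ∏ l ∈ ((univ.erase i).erase j).erase m, s l := by
    intro m hm
    rw [Finset.mem_erase, Finset.mem_erase] at hm
    have hi' : i ∈ univ.erase m := by simp [hm.2.1.symm]
    have hj' : j ∈ (univ.erase m).erase i := by simp [hm.1.symm, hij.symm]
    have e : ((univ.erase i).erase j).erase m = ((univ.erase m).erase i).erase j := by
      ext x; simp only [Finset.mem_erase]; tauto
    rw [e, ← Finset.mul_prod_erase _ s hi', ← Finset.mul_prod_erase _ s hj']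
    ring
  unfold G
  rw [h4, h2, h3, Finset.sum_congr rfl h5, ← Finset.mul_sum, h1]
  ring

theorem sum_prod_erase_ge {ι : Type*} [DecidableEq ι] (o : Finset ι) (s : ι → ℝ)
    (h0 : ∀ i ∈ o, 0 ≤ s i) (h1 : ∀ i ∈ o, s i ≤ 1) :
    (o.card : ℝ) * ∏ k ∈ o, s k ≤ ∑ k ∈ o, ∏ l ∈ o.erase k, s l := by
  have : (o.card : ℝ) * ∏ k ∈ o, s k = ∑ k ∈ o, ∏ k ∈ o, s k := by
    rw [Finset.sum_const, nsmul_eq_mul]
  rw [this]
  refine Finset.sum_le_sum fun k hk => ?_
  rw [← Finset.mul_prod_erase o s hk]
  refine mul_le_of_le_one_left ?_ (h1 k hk)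
  exact Finset.prod_nonneg fun l hl => h0 l (Finset.mem_of_mem_erase hl)

theorem G_smooth {α β : ℝ} {n : ℕ} (hα : 0 ≤ α) (hαβ : 0 ≤ α * ((n : ℝ) - 2) + β)
    (s : Fin n → ℝ) (h0 : ∀ i, 0 ≤ s i) (h1 : ∀ i, s i ≤ 1) {i j : Fin n} (hij : i ≠ j) :
    G α β s ≤ G α β (Function.update (Function.update s i ((s i + s j) / 2)) j
      ((s i + s j) / 2)) := by
  set m := (s i + s j) / 2 with hm
  set s' := Function.update (Function.update s i m) j m with hs'
  have e1 : s' i = m := by simp [hs', hij]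
  have e2 : s' j = m := by simp [hs']
  set o := (univ.erase i).erase j with ho
  have e3 : ∀ k ∈ o, s' k = s k := by
    intro k hk
    rw [ho, Finset.mem_erase, Finset.mem_erase] at hk
    simp [hs', hk.1, hk.2.1]
  rw [G_pair α β s hij, G_pair α β s' hij, e1, e2, ← ho]
  have e4 : ∏ k ∈ o, s' k = ∏ k ∈ o, s k := Finset.prod_congr rfl e3
  have e5 : ∑ k ∈ o, ∏ l ∈ o.erase k, s' l = ∑ k ∈ o, ∏ l ∈ o.erase k, s l := by
    refine Finset.sum_congr rfl fun k _ => ?_
    exact Finset.prod_congr rfl fun l hl => e3 l (Finset.mem_of_mem_erase hl)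
  rw [e4, e5]
  have hcard : (o.card : ℝ) = (n : ℝ) - 2 := by
    have hj : j ∈ univ.erase i := by simp [hij.symm]
    have hn2 : 2 ≤ n := by
      have : i.val ≠ j.val := fun h => hij (Fin.ext h)
      have := i.isLt
      have := j.isLt
      omega
    rw [ho, Finset.card_erase_of_mem hj, Finset.card_erase_of_mem (Finset.mem_univ i),
      Finset.card_univ, Fintype.card_fin]
    have : n - 1 - 1 = n - 2 := by omega
    rw [this, Nat.cast_sub hn2]
    norm_num
  have h2 := sum_prod_erase_ge o s (fun i _ => h0 i) (fun i _ => h1 i)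
  rw [hcard] at h2
  have hP : 0 ≤ ∏ k ∈ o, s k := Finset.prod_nonneg fun l _ => h0 l
  set Po := ∏ k ∈ o, s k
  set Eo := ∑ k ∈ o, ∏ l ∈ o.erase k, s l
  have hC : 0 ≤ α * Eo + β * Po := by
    have h3 : 0 ≤ (α * ((n : ℝ) - 2) + β) * Po := mul_nonneg hαβ hP
    have h4 : α * (((n : ℝ) - 2) * Po) ≤ α * Eo := mul_le_mul_of_nonneg_left h2 hα
    nlinarith
  have h5 : 0 ≤ (α * Eo + β * Po) * (s i - s j) ^ 2 := mul_nonneg hC (sq_nonneg _)
  have h6 : m * m = s i * s j + (s i - s j) ^ 2 / 4 := by rw [hm]; ring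
  have h7 : m + m = s i + s j := by rw [hm]; ring
  rw [h6, h7]
  nlinarith

theorem continuous_G (α β : ℝ) {n : ℕ} : Continuous (fun s : Fin n → ℝ => G α β s) := by
  unfold G
  fun_prop

theorem G_le {α β : ℝ} {n : ℕ} (hn : 0 < n) (hα : 0 ≤ α) (hαβ : 0 ≤ α * ((n : ℝ) - 2) + β)
    (s : Fin n → ℝ) (h0 : ∀ i, 0 ≤ s i) (h1 : ∀ i, s i ≤ 1) :
    G α β s ≤ G α β (fun _ : Fin n => (∑ i, s i) / n) := by
  have hn' : (n : ℝ) ≠ 0 := by exact_mod_cast hn.ne'
  refine le_of_forall_pos_le_add fun ε hε => ?_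
  set η := ε / n with hη
  have hη0 : 0 < η := by positivity
  set K : Set (Fin n → ℝ) := (Set.pi Set.univ (fun _ => Set.Icc (0 : ℝ) 1)) ∩
    {x | ∑ i, x i = ∑ i, s i} with hK
  have hKc : IsCompact K := by
    refine (isCompact_univ_pi fun _ => isCompact_Icc).inter_right ?_
    exact isClosed_eq (by fun_prop) continuous_const
  have hsK : s ∈ K := ⟨fun i _ => ⟨h0 i, h1 i⟩, rfl⟩
  have hf : Continuous (fun x : Fin n → ℝ => G α β x - η * ∑ i, x i ^ 2) := by
    have := continuous_G α β (n := n)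
    fun_prop
  obtain ⟨x, hxK, hmax⟩ := hKc.exists_isMaxOn ⟨s, hsK⟩ hf.continuousOn
  have hx0 : ∀ i, 0 ≤ x i := fun i => (hxK.1 i (Set.mem_univ i)).1
  have hx1 : ∀ i, x i ≤ 1 := fun i => (hxK.1 i (Set.mem_univ i)).2
  have hconst : ∀ i j, x i = x j := by
    intro i j
    by_contra hne
    have hij : i ≠ j := fun h => hne (by rw [h])
    set m := (x i + x j) / 2 with hm
    set x' := Function.update (Function.update x i m) j m with hx'
    have e1 : x' i = m := by simp [hx', hij]
    have e2 : x' j = m := by simp [hx']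
    have hj : j ∈ univ.erase i := by simp [hij.symm]
    have e3 : ∀ k ∈ (univ.erase i).erase j, x' k = x k := by
      intro k hk
      rw [Finset.mem_erase, Finset.mem_erase] at hk
      simp [hx', hk.1, hk.2.1]
    have hsplit : ∀ (φ : ℝ → ℝ) (y : Fin n → ℝ), ∑ k, φ (y k) =
        φ (y i) + (φ (y j) + ∑ k ∈ (univ.erase i).erase j, φ (y k)) := by
      intro φ y
      rw [← Finset.add_sum_erase univ (fun k => φ (y k)) (Finset.mem_univ i),
        ← Finset.add_sum_erase (univ.erase i) (fun k => φ (y k)) hj]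
    have hx'K : x' ∈ K := by
      refine ⟨fun k _ => ?_, ?_⟩
      · by_cases hkj : k = j
        · subst hkj
          rw [e2]
          constructor
          · rw [hm]; linarith [hx0 i, hx0 k]
          · rw [hm]; linarith [hx1 i, hx1 k]
        · by_cases hki : k = i
          · subst hki
            rw [e1]
            constructor
            · rw [hm]; linarith [hx0 k, hx0 j]
            · rw [hm]; linarith [hx1 k, hx1 j]
          · rw [e3 k (by simp [hkj, hki])]
            exact ⟨hx0 k, hx1 k⟩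
      · have h2 : ∑ k, x' k = ∑ k, x k := by
          rw [hsplit (fun t => t) x', hsplit (fun t => t) x, e1, e2,
            Finset.sum_congr rfl e3]
          rw [hm]; ring
        have h3 : ∑ k, x k = ∑ k, s k := hxK.2
        show ∑ k, x' k = ∑ k, s k
        rw [h2, h3]
    have h4 : G α β x' - η * ∑ i, x' i ^ 2 ≤ G α β x - η * ∑ i, x i ^ 2 := hmax hx'K
    have h5 := G_smooth hα hαβ x hx0 hx1 hij
    have h6 : ∑ k, x' k ^ 2 < ∑ k, x k ^ 2 := by
      rw [hsplit (fun t => t ^ 2) x', hsplit (fun t => t ^ 2) x, e1, e2,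
        Finset.sum_congr rfl (fun k hk => by rw [e3 k hk])]
      have h7 : 0 < (x i - x j) ^ 2 := by
        have : x i - x j ≠ 0 := sub_ne_zero.mpr hne
        positivity
      have h8 : m ^ 2 + m ^ 2 = x i ^ 2 + x j ^ 2 - (x i - x j) ^ 2 / 2 := by rw [hm]; ring
      linarith
    have h7 : η * ∑ k, x' k ^ 2 < η * ∑ k, x k ^ 2 := mul_lt_mul_of_pos_left h6 hη0
    have h8 : G α β x ≤ G α β x' := h5
    linarith
  have hxc : x = fun _ : Fin n => (∑ i, s i) / n := by
    funext i
    have h2 : ∑ k, x k = n * x i := by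
      rw [Finset.sum_congr rfl (fun k _ => hconst k i)]
      simp
    have h3 : ∑ k, x k = ∑ k, s k := hxK.2
    rw [← h3, h2]
    field_simp
  have h9 : G α β s - η * ∑ i, s i ^ 2 ≤ G α β x - η * ∑ i, x i ^ 2 := hmax hsK
  rw [hxc] at h9
  have h10 : ∑ k, s k ^ 2 ≤ n := by
    calc ∑ k, s k ^ 2 ≤ ∑ _k : Fin n, (1 : ℝ) := by
          refine Finset.sum_le_sum fun k _ => ?_
          exact pow_le_one₀ (h0 k) (h1 k)
      _ = n := by simp
  have h11 : η * ∑ k, s k ^ 2 ≤ ε := by
    calc η * ∑ k, s k ^ 2 ≤ η * n := mul_le_mul_of_nonneg_left h10 hη0.le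
      _ = ε := by rw [hη]; field_simp
  have h12 : 0 ≤ η * ∑ _k : Fin n, ((∑ i, s i) / n) ^ 2 := by positivity
  linarith

/-! ### Arrow matrices -/

/-- an arrow matrix -/
def arrow {n : ℕ} (lam u v : Fin n → ℝ) (κ : ℝ) : Matrix (Fin n ⊕ Fin 1) (Fin n ⊕ Fin 1) ℝ :=
  fromBlocks (diagonal lam) (of fun i _ => u i) (of fun _ j => v j) (of fun _ _ => κ)

theorem det_arrow_aux {n : ℕ} (lam u v : Fin n → ℝ) (κ : ℝ) (h : ∀ i, lam i ≠ 0) :
    (arrow lam u v κ).det = κ * ∏ j, lam j - ∑ j, u j * v j * ∏ l ∈ univ.erase j, lam l := by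
  have : Invertible (diagonal lam) := by
    refine ⟨diagonal fun i => (lam i)⁻¹, ?_, ?_⟩
    · rw [diagonal_mul_diagonal, ← diagonal_one]
      congr 1
      funext i
      exact inv_mul_cancel₀ (h i)
    · rw [diagonal_mul_diagonal, ← diagonal_one]
      congr 1
      funext i
      exact mul_inv_cancel₀ (h i)
  have hinv : ⅟(diagonal lam) = diagonal fun i => (lam i)⁻¹ := by
    apply invOf_eq_right_inv
    rw [diagonal_mul_diagonal, ← diagonal_one]
    congr 1
    funext i
    exact mul_inv_cancel₀ (h i)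
  unfold arrow
  rw [det_fromBlocks₁₁, hinv, det_diagonal, det_unique]
  simp only [Matrix.sub_apply, of_apply, Matrix.mul_apply, diagonal_apply, mul_ite, mul_zero,
    Finset.sum_ite_eq', Finset.mem_univ, if_true]
  rw [mul_sub, mul_comm (∏ i, lam i) κ, Finset.mul_sum]
  congr 1
  refine Finset.sum_congr rfl fun j _ => ?_
  rw [← Finset.mul_prod_erase univ lam (Finset.mem_univ j)]
  have := h j
  field_simp

theorem det_arrow {n : ℕ} (lam u v : Fin n → ℝ) (κ : ℝ) :
    (arrow lam u v κ).det = κ * ∏ j, lam j - ∑ j, u j * v j * ∏ l ∈ univ.erase j, lam l := by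
  set S : Set ℝ := {ε | ∃ j, lam j + ε = 0} with hS
  have hfin : S.Finite := by
    have : S ⊆ Set.range (fun j => - lam j) := by
      rintro ε ⟨j, hj⟩
      exact ⟨j, by simp only; linarith⟩
    exact (Set.finite_range _).subset this
  have hdense : Dense Sᶜ := hfin.countable.dense_compl ℝ
  have hF : Continuous fun ε : ℝ => (arrow (fun j => lam j + ε) u v κ).det := by
    apply Continuous.matrix_det
    unfold arrow
    refine continuous_matrix fun i j => ?_
    rcases i with i | i <;> rcases j with j | j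
    · simp only [fromBlocks_apply₁₁, diagonal_apply]
      split_ifs
      · fun_prop
      · exact continuous_const
    · exact continuous_const
    · exact continuous_const
    · exact continuous_const
  have hG : Continuous fun ε : ℝ => κ * ∏ j, (lam j + ε) -
      ∑ j, u j * v j * ∏ l ∈ univ.erase j, (lam l + ε) := by
    fun_prop
  have := hF.ext_on hdense hG (fun ε hε => by
    apply det_arrow_aux
    intro j hj
    exact hε ⟨j, hj⟩)
  have h0 := congrFun this 0
  simpa using h0

theorem trace_adjugate_arrow {n : ℕ} (lam u v : Fin n → ℝ) (κ : ℝ) :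
    (arrow lam u v κ).adjugate.trace = ∏ j, lam j + κ * ∑ k, ∏ l ∈ univ.erase k, lam l -
      ∑ j, u j * v j * ∑ k ∈ univ.erase j, ∏ l ∈ (univ.erase j).erase k, lam l := by
  have h1 : ∀ k : Fin n, (arrow lam u v κ).adjugate (Sum.inl k) (Sum.inl k) =
      κ * ∏ l ∈ univ.erase k, lam l -
        ∑ j ∈ univ.erase k, u j * v j * ∏ l ∈ (univ.erase j).erase k, lam l := by
    intro k
    rw [adjugate_apply]
    have h2 : (arrow lam u v κ).updateRow (Sum.inl k) (Pi.single (Sum.inl k) 1) =
        arrow (Function.update lam k 1) (Function.update u k 0) v κ := by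
      ext i j
      unfold arrow
      rcases i with i | i
      · by_cases hik : i = k
        · subst hik
          rw [updateRow_self]
          rcases j with j | j
          · by_cases hij : i = j
            · subst hij
              simp
            · simp [hij, Ne.symm hij]
          · simp
        · rw [updateRow_ne (by simpa using hik)]
          rcases j with j | j
          · simp [diagonal_apply, hik]
          · simp [hik]
      · rw [updateRow_ne (by simp)]
        rcases j with j | j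
        · simp
        · simp
    rw [h2, det_arrow]
    have h3 : ∏ j, Function.update lam k 1 j = ∏ l ∈ univ.erase k, lam l := by
      rw [← Finset.mul_prod_erase univ _ (Finset.mem_univ k), Function.update_self, one_mul]
      refine Finset.prod_congr rfl fun l hl => ?_
      rw [Function.update_of_ne (Finset.ne_of_mem_erase hl)]
    rw [h3]
    congr 1
    rw [← Finset.add_sum_erase univ _ (Finset.mem_univ k)]
    rw [Function.update_self, zero_mul, zero_mul, zero_add]
    refine Finset.sum_congr rfl fun j hj => ?_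
    rw [Function.update_of_ne (Finset.ne_of_mem_erase hj)]
    congr 1
    have hk : k ∈ univ.erase j := by
      rw [Finset.mem_erase]
      exact ⟨(Finset.ne_of_mem_erase hj).symm, Finset.mem_univ k⟩
    rw [← Finset.mul_prod_erase (univ.erase j) _ hk, Function.update_self, one_mul]
    refine Finset.prod_congr rfl fun l hl => ?_
    rw [Function.update_of_ne (Finset.ne_of_mem_erase hl)]
  have h2 : (arrow lam u v κ).adjugate (Sum.inr 0) (Sum.inr 0) = ∏ l, lam l := by
    rw [adjugate_apply]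
    have h3 : (arrow lam u v κ).updateRow (Sum.inr 0) (Pi.single (Sum.inr 0) 1) =
        arrow lam u (fun _ => 0) 1 := by
      ext i j
      unfold arrow
      rcases i with i | i
      · rw [updateRow_ne (by simp)]
        rcases j with j | j
        · simp
        · simp
      · have : i = 0 := Subsingleton.elim _ _
        subst this
        rw [updateRow_self]
        rcases j with j | j
        · simp
        · have : j = 0 := Subsingleton.elim _ _
          subst this
          simp
    rw [h3, det_arrow]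
    simp
  rw [trace, Fintype.sum_sum_type]
  simp only [diag_apply]
  rw [Finset.sum_congr rfl (fun k _ => h1 k)]
  simp only [Finset.univ_unique, Fin.default_eq_zero, Fin.isValue, Finset.sum_singleton]
  rw [h2, Finset.sum_sub_distrib, ← Finset.mul_sum]
  have h4 : ∑ k, ∑ j ∈ univ.erase k, u j * v j * ∏ l ∈ (univ.erase j).erase k, lam l =
      ∑ j, u j * v j * ∑ k ∈ univ.erase j, ∏ l ∈ (univ.erase j).erase k, lam l := by
    rw [Finset.sum_comm' (t' := univ) (s' := fun j => univ.erase j)]
    · refine Finset.sum_congr rfl fun j _ => ?_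
      rw [Finset.mul_sum]
    · intro x y
      simp only [Finset.mem_univ, Finset.mem_erase, true_and, and_true]
      exact ne_comm
  rw [h4]
  ring

theorem phi_arrow_le {n : ℕ} (hn : 3 ≤ n) (lam w : Fin n → ℝ) (κ : ℝ)
    (h0 : ∀ i, 0 ≤ lam i) (h1 : ∀ i, lam i ≤ 1) (hκ0 : 0 ≤ κ) (hκ1 : κ ≤ 1) :
    (2 * n + 3) * (arrow lam w w κ).adjugate.trace - (3 * n + 6) * (arrow lam w w κ).det ≤
      (2 * n + 3) * (((∑ i, lam i) / n) ^ n + n * κ * ((∑ i, lam i) / n) ^ (n - 1)) -
        (3 * n + 6) * κ * ((∑ i, lam i) / n) ^ n := by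
  have hn3 : (3 : ℝ) ≤ n := by exact_mod_cast hn
  rw [trace_adjugate_arrow, det_arrow]
  have hcoef : 0 ≤ (2 * (n : ℝ) + 3) * κ * ((n : ℝ) - 2) + (2 * n + 3 - (3 * n + 6) * κ) := by
    have h2 : -6 ≤ (2 * (n : ℝ) + 3) * ((n : ℝ) - 2) - (3 * n + 6) := by nlinarith
    have h3 := mul_le_mul_of_nonneg_left h2 hκ0
    nlinarith
  have hG := G_le (α := (2 * n + 3) * κ) (β := (2 * n + 3) - (3 * n + 6) * κ) (n := n)
    (by omega) (by positivity) hcoef lam h0 h1
  unfold G at hG
  simp only [Finset.prod_const, Finset.card_univ, Fintype.card_fin] at hG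
  have hcard : ∀ i : Fin n, (univ.erase i).card = n - 1 := by
    intro i
    rw [Finset.card_erase_of_mem (Finset.mem_univ i), Finset.card_univ, Fintype.card_fin]
  simp only [hcard, Finset.sum_const, Finset.card_univ, Fintype.card_fin, nsmul_eq_mul] at hG
  have hE : (3 * n + 6) * ∑ j, w j * w j * ∏ l ∈ univ.erase j, lam l ≤
      (2 * n + 3) * ∑ j, w j * w j * ∑ k ∈ univ.erase j,
        ∏ l ∈ (univ.erase j).erase k, lam l := by
    rw [Finset.mul_sum, Finset.mul_sum]
    refine Finset.sum_le_sum fun j _ => ?_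
    have h2 := sum_prod_erase_ge (univ.erase j) lam (fun i _ => h0 i) (fun i _ => h1 i)
    rw [hcard j, Nat.cast_sub (by omega : 1 ≤ n)] at h2
    have hP : 0 ≤ ∏ l ∈ univ.erase j, lam l := Finset.prod_nonneg fun l _ => h0 l
    have hw : 0 ≤ w j * w j := mul_self_nonneg _
    set P := ∏ l ∈ univ.erase j, lam l
    set E := ∑ k ∈ univ.erase j, ∏ l ∈ (univ.erase j).erase k, lam l
    have h3 : (3 * (n : ℝ) + 6) * P ≤ (2 * n + 3) * E := by
      have h4 : (2 * (n : ℝ) + 3) * (((n : ℝ) - (1 : ℕ)) * P) ≤ (2 * n + 3) * E :=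
        mul_le_mul_of_nonneg_left h2 (by positivity)
      have h5 : (3 * (n : ℝ) + 6) * P ≤ (2 * (n : ℝ) + 3) * (((n : ℝ) - (1 : ℕ)) * P) := by
        have : (3 * (n : ℝ) + 6) ≤ (2 * (n : ℝ) + 3) * ((n : ℝ) - (1 : ℕ)) := by
          push_cast; nlinarith
        calc (3 * (n : ℝ) + 6) * P ≤ ((2 * (n : ℝ) + 3) * ((n : ℝ) - (1 : ℕ))) * P :=
              mul_le_mul_of_nonneg_right this hP
          _ = _ := by ring
      linarith
    calc (3 * (n : ℝ) + 6) * (w j * w j * P) = (w j * w j) * ((3 * n + 6) * P) := by ring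
      _ ≤ (w j * w j) * ((2 * n + 3) * E) := mul_le_mul_of_nonneg_left h3 hw
      _ = _ := by ring
  nlinarith

/-! ### Assembly -/

theorem exists_orth_diag {n : ℕ} (N : Matrix (Fin n) (Fin n) ℝ) (hN : Nᵀ = N) :
    ∃ (U : Matrix (Fin n) (Fin n) ℝ) (lam : Fin n → ℝ), Uᵀ * U = 1 ∧ U * Uᵀ = 1 ∧
      Uᵀ * N * U = diagonal lam := by
  have hA : N.IsHermitian := by
    rw [IsHermitian, conjTranspose_eq_transpose_of_trivial, hN]
  have h1 : (hA.eigenvectorUnitary : Matrix (Fin n) (Fin n) ℝ)ᵀ *
      (hA.eigenvectorUnitary : Matrix (Fin n) (Fin n) ℝ) = 1 := by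
    have := Unitary.coe_star_mul_self hA.eigenvectorUnitary
    rwa [star_eq_conjTranspose, conjTranspose_eq_transpose_of_trivial] at this
  refine ⟨(hA.eigenvectorUnitary : Matrix (Fin n) (Fin n) ℝ), hA.eigenvalues, h1,
    mul_eq_one_comm.mp h1, ?_⟩
  · have := hA.conjStarAlgAut_star_eigenvectorUnitary
    rw [Unitary.conjStarAlgAut_star_apply, star_eq_conjTranspose,
      conjTranspose_eq_transpose_of_trivial] at this
    rw [this]
    rfl

/-- (STAR) -/
theorem star_ineq {n : ℕ} (hn : 3 ≤ n) (Q : Matrix (Fin (n + 1)) (Fin (n + 1)) ℝ)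
    (hQ : ∀ v : Fin (n + 1) → ℝ, v ⬝ᵥ ((Q * Qᵀ) *ᵥ v) ≤ v ⬝ᵥ v) (κ c : ℝ)
    (hκ : κ = ∑ j, Q (Fin.last n) j ^ 2)
    (hc : c = (∑ i : Fin n, ∑ j, Q i.castSucc j ^ 2) / n) :
    (2 * n + 3) * (∑ i, ∑ j, Q.adjugate i j ^ 2) - (3 * n + 6) * Q.det ^ 2 ≤
      (2 * n + 3) * (c ^ n + n * κ * c ^ (n - 1)) - (3 * n + 6) * κ * c ^ n := by
  set M := Q * Qᵀ with hM
  have hMT : Mᵀ = M := by rw [hM, transpose_mul, transpose_transpose]
  have hMij : ∀ i j, M i j = ∑ k, Q i k * Q j k := by
    intro i j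
    rw [hM, Matrix.mul_apply]
    rfl
  have hMsymm : ∀ i j, M i j = M j i := by
    intro i j
    conv_lhs => rw [← hMT]
    rfl
  have hadj : ∑ i, ∑ j, Q.adjugate i j ^ 2 = M.adjugate.trace := by
    rw [hM, adjugate_mul_distrib, ← adjugate_transpose]
    rw [trace]
    simp only [diag_apply, Matrix.mul_apply, transpose_apply]
    rw [Finset.sum_comm]
    refine Finset.sum_congr rfl fun i _ => Finset.sum_congr rfl fun j _ => ?_
    ring
  have hdet : Q.det ^ 2 = M.det := by
    rw [hM, det_mul, det_transpose]; ring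
  clear_value M
  clear hM
  -- blocks
  set e : Fin n ⊕ Fin 1 ≃ Fin (n + 1) := finSumFinEquiv with he
  have hel : ∀ i : Fin n, e (Sum.inl i) = i.castSucc := by
    intro i; rw [he, finSumFinEquiv_apply_left]; rfl
  have her : ∀ i : Fin 1, e (Sum.inr i) = Fin.last n := by
    intro i
    rw [he, finSumFinEquiv_apply_right]
    have : i = 0 := Subsingleton.elim _ _
    subst this
    rfl
  set N : Matrix (Fin n) (Fin n) ℝ := of fun i j => M i.castSucc j.castSucc with hNdef
  set w : Fin n → ℝ := fun i => M i.castSucc (Fin.last n) with hw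
  have hκ' : M (Fin.last n) (Fin.last n) = κ := by
    rw [hMij, hκ]
    refine Finset.sum_congr rfl fun j _ => ?_
    ring
  have hblock : M.submatrix e e = fromBlocks N (of fun i _ => w i) (of fun _ j => w j)
      (of fun _ _ => κ) := by
    ext i j
    rcases i with i | i <;> rcases j with j | j
    · simp [hel, hNdef]
    · simp [hel, her, hw]
    · simp only [submatrix_apply, hel, her, fromBlocks_apply₂₁, of_apply, hw]
      exact hMsymm _ _
    · simp [her, hκ']
  have hNT : Nᵀ = N := by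
    ext i j
    simp only [transpose_apply, hNdef, of_apply]
    exact hMsymm _ _
  obtain ⟨U, lam, hU1, hU2, hU3⟩ := exists_orth_diag N hNT
  set V : Matrix (Fin n ⊕ Fin 1) (Fin n ⊕ Fin 1) ℝ := fromBlocks U 0 0 1 with hV
  have hVT : Vᵀ = fromBlocks Uᵀ 0 0 1 := by
    rw [hV, fromBlocks_transpose]
    simp
  have hV1 : Vᵀ * V = 1 := by
    rw [hVT, hV, fromBlocks_multiply, hU1]
    simp
  have hV2 : V * Vᵀ = 1 := by
    rw [hVT, hV, fromBlocks_multiply, hU2]
    simp
  have harrow : Vᵀ * M.submatrix e e * V = arrow lam (Uᵀ *ᵥ w) (Uᵀ *ᵥ w) κ := by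
    rw [hblock, hVT, hV, fromBlocks_multiply, fromBlocks_multiply]
    unfold arrow
    congr 1
    · simp only [Matrix.zero_mul, Matrix.mul_zero, add_zero]
      exact hU3
    · ext i j
      simp [Matrix.mul_apply, mulVec, dotProduct]
    · ext i j
      simp [Matrix.mul_apply, mulVec, dotProduct, mul_comm]
    · simp
  have hdet' : M.det = (arrow lam (Uᵀ *ᵥ w) (Uᵀ *ᵥ w) κ).det := by
    rw [← harrow, det_mul, det_mul, det_submatrix_equiv_self]
    have : Vᵀ.det * V.det = 1 := by rw [← det_mul, hV1, det_one]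
    linear_combination (-M.det) * this
  have htr' : M.adjugate.trace = (arrow lam (Uᵀ *ᵥ w) (Uᵀ *ᵥ w) κ).adjugate.trace := by
    rw [← harrow, adjugate_mul_distrib, adjugate_mul_distrib, trace_mul_comm, Matrix.mul_assoc,
      ← adjugate_mul_distrib, hV2, adjugate_one, Matrix.mul_one,
      adjugate_submatrix_equiv_self]
    rw [trace, trace]
    exact (Equiv.sum_comp e (fun i => M.adjugate i i)).symm
  have hlam : ∀ i, lam i = ∑ j, (∑ k, U k i * Q k.castSucc j) ^ 2 := by
    intro i
    have h1 : lam i = (Uᵀ * N * U) i i := by rw [hU3, diagonal_apply_eq]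
    rw [h1, Matrix.mul_apply]
    simp only [Matrix.mul_apply, transpose_apply, hNdef, of_apply, hMij]
    have h2 : ∀ j, (∑ k, U k i * Q k.castSucc j) ^ 2 =
        ∑ x, (∑ k, U k i * (Q k.castSucc j * Q x.castSucc j)) * U x i := by
      intro j
      rw [pow_two, Finset.mul_sum]
      refine Finset.sum_congr rfl fun x _ => ?_
      rw [Finset.sum_mul, Finset.sum_mul]
      refine Finset.sum_congr rfl fun k _ => ?_
      ring
    rw [Finset.sum_congr rfl fun j _ => h2 j, Finset.sum_comm]
    refine Finset.sum_congr rfl fun x _ => ?_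
    rw [← Finset.sum_mul, Finset.sum_comm]
    congr 1
    refine Finset.sum_congr rfl fun k _ => ?_
    rw [Finset.mul_sum]
  have hlam0 : ∀ i, 0 ≤ lam i := by
    intro i
    rw [hlam]
    positivity
  have hlam1 : ∀ i, lam i ≤ 1 := by
    intro i
    set v : Fin (n + 1) → ℝ := Fin.snoc (fun k => U k i) 0 with hv
    have hvc : ∀ k : Fin n, v k.castSucc = U k i := by
      intro k; simp [hv]
    have hvl : v (Fin.last n) = 0 := by simp [hv]
    have h1 := hQ v
    have h2 : v ⬝ᵥ v = 1 := by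
      have h3 : (Uᵀ * U) i i = 1 := by rw [hU1]; simp
      rw [dotProduct, Fin.sum_univ_castSucc, hvl]
      simp only [hvc]
      rw [Matrix.mul_apply] at h3
      simpa using h3
    have h3 : v ⬝ᵥ (M *ᵥ v) = lam i := by
      have h4 : lam i = (Uᵀ * N * U) i i := by rw [hU3, diagonal_apply_eq]
      rw [h4, Matrix.mul_assoc, Matrix.mul_apply, dotProduct, Fin.sum_univ_castSucc, hvl,
        zero_mul, add_zero]
      refine Finset.sum_congr rfl fun k _ => ?_
      rw [hvc, transpose_apply, mulVec, dotProduct, Fin.sum_univ_castSucc, hvl, mul_zero,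
        add_zero, Matrix.mul_apply]
      congr 1
      refine Finset.sum_congr rfl fun l _ => ?_
      rw [hvc]
      rfl
    rw [h3, h2] at h1
    exact h1
  have hκ0 : 0 ≤ κ := by rw [hκ]; positivity
  have hκ1 : κ ≤ 1 := by
    have h1 := hQ (Pi.single (Fin.last n) 1)
    simp only [mulVec_single_one, single_one_dotProduct, col_apply, Pi.single_eq_same] at h1
    rw [hκ'] at h1
    exact h1
  have hsum : (∑ i, lam i) / n = c := by
    rw [hc]
    congr 1
    have h1 : ∑ i, lam i = (Uᵀ * N * U).trace := by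
      rw [hU3, trace_diagonal]
    rw [h1, trace_mul_comm, ← Matrix.mul_assoc, hU2, Matrix.one_mul, trace]
    refine Finset.sum_congr rfl fun i _ => ?_
    simp only [diag_apply, hNdef, of_apply, hMij]
    refine Finset.sum_congr rfl fun j _ => ?_
    ring
  have := phi_arrow_le hn lam (Uᵀ *ᵥ w) κ hlam0 hlam1 hκ0 hκ1
  rw [hsum] at this
  rw [hadj, hdet, htr', hdet']
  exact this

end Pool.Agent.Helper77.Star
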