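import Pool.Agent.Helper77.OneVar

/-!
# The one-variable integral inequality: small `n` and the final statement
-/

namespace Pool.Agent.Helper77.OneVar

open Real intervalIntegral

theorem int_cos_pow4 : ∫ t in (0 : ℝ)..(2 * π), (cos t ^ 2) ^ 2 = 3 / 4 * π := by
  have : (fun t : ℝ => (cos t ^ 2) ^ 2) = fun t => |cos t| ^ 4 := by
    funext t
    rw [← sq_abs (cos t)]; ring
  rw [this]
  have h := gint_four
  rw [gint] at h
  exact h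

theorem int_cos_pow6 : ∫ t in (0 : ℝ)..(2 * π), (cos t ^ 2) ^ 3 = 5 / 8 * π := by
  have : (fun t : ℝ => (cos t ^ 2) ^ 3) = fun t => |cos t| ^ 6 := by
    funext t
    rw [← sq_abs (cos t)]; ring
  rw [this]
  have h := gint_six
  rw [gint] at h
  exact h

theorem int_cos_pow8 : ∫ t in (0 : ℝ)..(2 * π), (cos t ^ 2) ^ 4 = 35 / 64 * π := by
  have : (fun t : ℝ => (cos t ^ 2) ^ 4) = fun t => |cos t| ^ 8 := by
    funext t
    rw [← sq_abs (cos t)]; ring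
  rw [this]
  have h := gint_eight
  rw [gint] at h
  exact h

theorem poly_int (c0 c1 c2 c3 c4 : ℝ) :
    ∫ t in (0 : ℝ)..(2 * π), ((((c0 + c1 * cos t ^ 2) + c2 * (cos t ^ 2) ^ 2) +
      c3 * (cos t ^ 2) ^ 3) + c4 * (cos t ^ 2) ^ 4) =
      π * (2 * c0 + c1 + 3 / 4 * c2 + 5 / 8 * c3 + 35 / 64 * c4) := by
  rw [int_add (by fun_prop) (by fun_prop), int_add (by fun_prop) (by fun_prop),
    int_add (by fun_prop) (by fun_prop), int_add (by fun_prop) (by fun_prop),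
    integral_const_mul, integral_const_mul, integral_const_mul, integral_const_mul,
    int_cos_sq, int_cos_pow4, int_cos_pow6, int_cos_pow8, integral_const]
  simp only [smul_eq_mul, sub_zero]
  ring

/-! ### `n = 4` -/

theorem J_two (u : ℝ) : Jint u 2 = π * (3 / 4 - u + u ^ 2) := by
  have h := poly_int (u ^ 2) (2 * u * (1 - 2 * u)) ((1 - 2 * u) ^ 2) 0 0
  have e : Jint u 2 = ∫ t in (0 : ℝ)..(2 * π), ((((u ^ 2 + (2 * u * (1 - 2 * u)) * cos t ^ 2) +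
      ((1 - 2 * u) ^ 2) * (cos t ^ 2) ^ 2) + 0 * (cos t ^ 2) ^ 3) + 0 * (cos t ^ 2) ^ 4) := by
    unfold Jint
    refine integral_congr fun t _ => ?_
    simp only [rpow_two]
    rw [Cf_eq]
    ring
  rw [e, h]
  ring

theorem X10_one (u : ℝ) : Xint u 1 0 1 = π * (3 / 4 - u / 2) := by
  have h := poly_int 0 u (1 - 2 * u) 0 0
  have e : Xint u 1 0 1 = ∫ t in (0 : ℝ)..(2 * π), ((((0 + u * cos t ^ 2) +
      (1 - 2 * u) * (cos t ^ 2) ^ 2) + 0 * (cos t ^ 2) ^ 3) + 0 * (cos t ^ 2) ^ 4) := by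
    unfold Xint
    refine integral_congr fun t _ => ?_
    simp only [rpow_one]
    rw [Cf_eq, kf10]
    ring
  rw [e, h]
  ring

theorem X01_one (u : ℝ) : Xint u 0 1 1 = π * (1 / 4 + u / 2) := by
  have h := poly_int u (1 - 3 * u) (-(1 - 2 * u)) 0 0
  have e : Xint u 0 1 1 = ∫ t in (0 : ℝ)..(2 * π), ((((u + (1 - 3 * u) * cos t ^ 2) +
      (-(1 - 2 * u)) * (cos t ^ 2) ^ 2) + 0 * (cos t ^ 2) ^ 3) + 0 * (cos t ^ 2) ^ 4) := by
    unfold Xint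
    refine integral_congr fun t _ => ?_
    simp only [rpow_one]
    rw [Cf_eq, kf01]
    ring
  rw [e, h]
  ring

theorem X10_zero (u : ℝ) : Xint u 1 0 0 = π := by
  have h := poly_int 0 1 0 0 0
  have e : Xint u 1 0 0 = ∫ t in (0 : ℝ)..(2 * π), ((((0 + 1 * cos t ^ 2) +
      0 * (cos t ^ 2) ^ 2) + 0 * (cos t ^ 2) ^ 3) + 0 * (cos t ^ 2) ^ 4) := by
    unfold Xint
    refine integral_congr fun t _ => ?_
    simp only [rpow_zero]
    rw [kf10]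
    ring
  rw [e, h]
  ring

theorem X01_zero (u : ℝ) : Xint u 0 1 0 = π := by
  have h := poly_int 1 (-1) 0 0 0
  have e : Xint u 0 1 0 = ∫ t in (0 : ℝ)..(2 * π), ((((1 + (-1) * cos t ^ 2) +
      0 * (cos t ^ 2) ^ 2) + 0 * (cos t ^ 2) ^ 3) + 0 * (cos t ^ 2) ^ 4) := by
    unfold Xint
    refine integral_congr fun t _ => ?_
    simp only [rpow_zero]
    rw [kf01]
    ring
  rw [e, h]
  ring

theorem goal10_four {u : ℝ} (hu0 : 0 < u) (hu : u ≤ 1 / 2) :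
    108 * Jint u 2 + 52 * Xint u 1 0 1 + 38 * (u * (1 - u)) * Xint u 1 0 0 ≤ 160 * gint 4 := by
  rw [J_two, X10_one, X10_zero, gint_four]
  have hp := pi_pos
  have : 0 ≤ π * (u * (96 - 70 * u)) := by
    have : 0 ≤ 96 - 70 * u := by linarith
    positivity
  nlinarith

theorem goal01_four {u : ℝ} (hu0 : 0 < u) (hu : u ≤ 1 / 2) :
    108 * Jint u 2 + 52 * Xint u 0 1 1 + 38 * (u * (1 - u)) * Xint u 0 1 0 ≤ 160 * gint 4 := by
  rw [J_two, X01_one, X01_zero, gint_four]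
  have hp := pi_pos
  have : 0 ≤ π * (u * (44 - 70 * u) + 26) := by
    have : 0 ≤ u * (44 - 70 * u) + 26 := by nlinarith
    positivity
  nlinarith

/-! ### `n = 3`, power bounds -/

theorem rpow_half_eq {c : ℝ} (_hc : 0 < c) : c ^ ((1 : ℝ) / 2) = √c := (sqrt_eq_rpow c).symm

theorem rpow_three_half_eq {c : ℝ} (hc : 0 < c) : c ^ ((3 : ℝ) / 2) = √c ^ 3 := by
  have h1 : c ^ ((3 : ℝ) / 2) = c ^ ((1 : ℝ) / 2) * c := by
    rw [← rpow_add_one hc.ne']; norm_num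
  rw [h1, rpow_half_eq hc, pow_succ, pow_two, mul_self_sqrt hc.le, mul_comm]

theorem rpow_neg_half_eq {c : ℝ} (hc : 0 < c) : c ^ (-(1 : ℝ) / 2) = 1 / √c := by
  have : (-(1 : ℝ) / 2) = -(1 / 2) := by ring
  rw [this, rpow_neg hc.le, rpow_half_eq hc, one_div]

theorem half_ub {c r : ℝ} (hc : 0 < c) (hr : 0 < r) :
    c ^ ((1 : ℝ) / 2) ≤ (c + r ^ 2) / (2 * r) := by
  rw [rpow_half_eq hc, le_div_iff₀ (by positivity)]
  have h1 := sq_sqrt hc.le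
  nlinarith [sq_nonneg (√c - r)]

theorem three_half_ub {c r : ℝ} (hc : 0 < c) (hr : 0 < r) :
    c ^ ((3 : ℝ) / 2) ≤ c * (c + r ^ 2) / (2 * r) := by
  have h1 : c ^ ((3 : ℝ) / 2) = c ^ ((1 : ℝ) / 2) * c := by
    rw [← rpow_add_one hc.ne']; norm_num
  rw [h1]
  have := mul_le_mul_of_nonneg_right (half_ub hc hr) hc.le
  refine this.trans (le_of_eq ?_)
  ring

theorem three_half_lb {c r : ℝ} (hc : 0 < c) (hr : 0 < r) :
    3 / 2 * r * c - r ^ 3 / 2 ≤ c ^ ((3 : ℝ) / 2) := by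
  rw [rpow_three_half_eq hc]
  have h1 := sq_sqrt hc.le
  have h2 : 0 ≤ (√c - r) ^ 2 * (√c + r / 2) := by positivity
  have h3 : √c ^ 3 - 3 / 2 * r * √c ^ 2 + r ^ 3 / 2 = (√c - r) ^ 2 * (√c + r / 2) := by ring
  rw [h1] at h3
  linarith

theorem half_ub' {c : ℝ} (hc : 0 < c) :
    c ^ ((1 : ℝ) / 2) ≤ 5 / 32 + 15 / 8 * c - 5 / 2 * c ^ 2 + 2 * c ^ 3 := by
  rw [rpow_half_eq hc]
  have h1 := sq_sqrt hc.le
  have h0 := sqrt_nonneg c
  set z := √c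
  have h2 : 0 ≤ (z - 1 / 2) ^ 4 * (2 * z ^ 2 + 4 * z + 5 / 2) := by positivity
  have h3 : 5 / 32 + 15 / 8 * z ^ 2 - 5 / 2 * (z ^ 2) ^ 2 + 2 * (z ^ 2) ^ 3 - z =
      (z - 1 / 2) ^ 4 * (2 * z ^ 2 + 4 * z + 5 / 2) := by ring
  rw [← h3, h1] at h2
  linarith

theorem J_ub {u r : ℝ} (hu0 : 0 < u) (hu : u ≤ 1 / 2) (hr : 0 < r) :
    Jint u (3 / 2) ≤ π * ((3 / 4 - u + u ^ 2 + r ^ 2) / (2 * r)) := by
  have h := poly_int (u * (u + r ^ 2) / (2 * r)) ((1 - 2 * u) * (2 * u + r ^ 2) / (2 * r))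
    ((1 - 2 * u) ^ 2 / (2 * r)) 0 0
  refine (int_mono (continuous_Cf_rpow hu0 hu _) (g := fun t =>
    ((((u * (u + r ^ 2) / (2 * r) + (1 - 2 * u) * (2 * u + r ^ 2) / (2 * r) * cos t ^ 2) +
      (1 - 2 * u) ^ 2 / (2 * r) * (cos t ^ 2) ^ 2) + 0 * (cos t ^ 2) ^ 3) + 0 * (cos t ^ 2) ^ 4))
    (by fun_prop) fun t => ?_).trans (le_of_eq (h.trans ?_))
  · refine (three_half_ub (Cf_pos hu0 hu t) hr).trans (le_of_eq ?_)
    rw [Cf_eq]
    field_simp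
    ring
  · field_simp
    ring

theorem X10_ub {u r : ℝ} (hu0 : 0 < u) (hu : u ≤ 1 / 2) (hr : 0 < r) :
    Xint u 1 0 (1 / 2) ≤ π * ((3 / 4 - u / 2 + r ^ 2) / (2 * r)) := by
  have h := poly_int 0 ((u + r ^ 2) / (2 * r)) ((1 - 2 * u) / (2 * r)) 0 0
  refine (int_mono ((continuous_kf 1 0).mul (continuous_Cf_rpow hu0 hu _)) (g := fun t =>
    ((((0 + (u + r ^ 2) / (2 * r) * cos t ^ 2) +
      (1 - 2 * u) / (2 * r) * (cos t ^ 2) ^ 2) + 0 * (cos t ^ 2) ^ 3) + 0 * (cos t ^ 2) ^ 4))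
    (by fun_prop) fun t => ?_).trans (le_of_eq (h.trans ?_))
  · refine (mul_le_mul_of_nonneg_left (half_ub (Cf_pos hu0 hu t) hr)
      (kf_nonneg (a := 1) (b := 0) (by norm_num) (by norm_num) t)).trans (le_of_eq ?_)
    rw [Cf_eq, kf10]
    field_simp
    ring
  · field_simp
    ring

theorem X10_lb {u r : ℝ} (hu0 : 0 < u) (hu : u ≤ 1 / 2) (hr : 0 < r) :
    π * (3 / 2 * r * (3 / 4 - u / 2) - r ^ 3 / 2) ≤ Xint u 1 0 (3 / 2) := by
  have h := poly_int 0 (3 / 2 * r * u - r ^ 3 / 2) (3 / 2 * r * (1 - 2 * u)) 0 0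
  refine (le_of_eq ?_).trans (int_mono (f := fun t =>
    ((((0 + (3 / 2 * r * u - r ^ 3 / 2) * cos t ^ 2) +
      (3 / 2 * r * (1 - 2 * u)) * (cos t ^ 2) ^ 2) + 0 * (cos t ^ 2) ^ 3) +
      0 * (cos t ^ 2) ^ 4)) (by fun_prop)
    ((continuous_kf 1 0).mul (continuous_Cf_rpow hu0 hu (3 / 2))) fun t => ?_)
  · rw [h]
    ring
  · refine (le_of_eq ?_).trans (mul_le_mul_of_nonneg_left (three_half_lb (Cf_pos hu0 hu t) hr)
      (kf_nonneg (a := 1) (b := 0) (by norm_num) (by norm_num) t))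
    rw [Cf_eq, kf10]
    ring

theorem X01_lb {u r : ℝ} (hu0 : 0 < u) (hu : u ≤ 1 / 2) (hr : 0 < r) :
    π * (3 / 2 * r * (1 / 4 + u / 2) - r ^ 3 / 2) ≤ Xint u 0 1 (3 / 2) := by
  have h := poly_int (3 / 2 * r * u - r ^ 3 / 2) (3 / 2 * r * (1 - 3 * u) + r ^ 3 / 2)
    (-(3 / 2 * r * (1 - 2 * u))) 0 0
  refine (le_of_eq ?_).trans (int_mono (f := fun t =>
    (((((3 / 2 * r * u - r ^ 3 / 2) + (3 / 2 * r * (1 - 3 * u) + r ^ 3 / 2) * cos t ^ 2) +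
      (-(3 / 2 * r * (1 - 2 * u))) * (cos t ^ 2) ^ 2) + 0 * (cos t ^ 2) ^ 3) +
      0 * (cos t ^ 2) ^ 4)) (by fun_prop)
    ((continuous_kf 0 1).mul (continuous_Cf_rpow hu0 hu (3 / 2))) fun t => ?_)
  · rw [h]
    ring
  · refine (le_of_eq ?_).trans (mul_le_mul_of_nonneg_left (three_half_lb (Cf_pos hu0 hu t) hr)
      (kf_nonneg (a := 0) (b := 1) (by norm_num) (by norm_num) t))
    rw [Cf_eq, kf01]
    ring

theorem X01_ub {u : ℝ} (hu0 : 0 < u) (hu : u ≤ 1 / 2) :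
    Xint u 0 1 (1 / 2) ≤ π * (5 / 32 + 15 / 8 * (1 / 4 + u / 2) -
      5 / 2 * (u ^ 2 + u * (1 - 2 * u) / 2 + (1 - 2 * u) ^ 2 / 8) +
      2 * (u ^ 3 + 3 * u ^ 2 * (1 - 2 * u) / 4 + 3 * u * (1 - 2 * u) ^ 2 / 8 +
        5 / 64 * (1 - 2 * u) ^ 3)) := by
  have h := poly_int (5 / 32 + 15 / 8 * u - 5 / 2 * u ^ 2 + 2 * u ^ 3)
    (-(5 / 32 + 15 / 8 * u - 5 / 2 * u ^ 2 + 2 * u ^ 3) +
      (15 / 8 * (1 - 2 * u) - 5 * u * (1 - 2 * u) + 6 * u ^ 2 * (1 - 2 * u)))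
    (-(15 / 8 * (1 - 2 * u) - 5 * u * (1 - 2 * u) + 6 * u ^ 2 * (1 - 2 * u)) +
      (-(5 / 2) * (1 - 2 * u) ^ 2 + 6 * u * (1 - 2 * u) ^ 2))
    (-(-(5 / 2) * (1 - 2 * u) ^ 2 + 6 * u * (1 - 2 * u) ^ 2) + 2 * (1 - 2 * u) ^ 3)
    (-(2 * (1 - 2 * u) ^ 3))
  refine (int_mono ((continuous_kf 0 1).mul (continuous_Cf_rpow hu0 hu _)) (g := fun t =>
    (((((5 / 32 + 15 / 8 * u - 5 / 2 * u ^ 2 + 2 * u ^ 3) +
    (-(5 / 32 + 15 / 8 * u - 5 / 2 * u ^ 2 + 2 * u ^ 3) +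
      (15 / 8 * (1 - 2 * u) - 5 * u * (1 - 2 * u) + 6 * u ^ 2 * (1 - 2 * u))) * cos t ^ 2) +
    (-(15 / 8 * (1 - 2 * u) - 5 * u * (1 - 2 * u) + 6 * u ^ 2 * (1 - 2 * u)) +
      (-(5 / 2) * (1 - 2 * u) ^ 2 + 6 * u * (1 - 2 * u) ^ 2)) * (cos t ^ 2) ^ 2) +
    (-(-(5 / 2) * (1 - 2 * u) ^ 2 + 6 * u * (1 - 2 * u) ^ 2) + 2 * (1 - 2 * u) ^ 3) *
      (cos t ^ 2) ^ 3) +
    (-(2 * (1 - 2 * u) ^ 3)) * (cos t ^ 2) ^ 4))
    (by fun_prop) fun t => ?_).trans (le_of_eq (h.trans ?_))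
  · refine (mul_le_mul_of_nonneg_left (half_ub' (Cf_pos hu0 hu t))
      (kf_nonneg (a := 0) (b := 1) (by norm_num) (by norm_num) t)).trans (le_of_eq ?_)
    rw [Cf_eq, kf01]
    ring
  · ring

/-! ### `n = 3` -/

theorem ibp_three {u : ℝ} (hu0 : 0 < u) (hu : u ≤ 1 / 2) {a b : ℝ} (hab : a + b = 1) :
    15 * (u * (1 - u)) * Xint u a b (-1 / 2) = 30 * Xint u a b (1 / 2) -
      25 * Xint u a b (3 / 2) - 10 * Jint u (3 / 2) := by
  have h := ibp' hu0 hu hab 3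
  have e1 : (3 : ℝ) / 2 - 1 = 1 / 2 := by norm_num
  have e2 : (3 : ℝ) / 2 - 2 = -1 / 2 := by norm_num
  rw [e1, e2] at h
  linarith

theorem three_red {u : ℝ} (hu0 : 0 < u) (hu : u ≤ 1 / 2) {a b : ℝ} (hab : a + b = 1)
    {J X1 X0 : ℝ} (hJ : Jint u (3 / 2) ≤ π * J) (hX1 : Xint u a b (1 / 2) ≤ π * X1)
    (hX0 : π * X0 ≤ Xint u a b (3 / 2)) (h : 29 * J + 39 * X1 - 25 * X0 ≤ 40.742) :
    39 * Jint u (3 / 2) + 9 * Xint u a b (1 / 2) +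
      15 * (u * (1 - u)) * Xint u a b (-1 / 2) ≤ 128 := by
  rw [ibp_three hu0 hu hab]
  have h1 : π * (29 * J + 39 * X1 - 25 * X0) ≤ π * 40.742 :=
    mul_le_mul_of_nonneg_left h pi_pos.le
  have h2 := pi_lt_d4
  nlinarith

theorem goal10_three_mid {u : ℝ} (hu0 : 1 / 5 ≤ u) (hu : u ≤ 3 / 10) :
    39 * Jint u (3 / 2) + 9 * Xint u 1 0 (1 / 2) +
      15 * (u * (1 - u)) * Xint u 1 0 (-1 / 2) ≤ 128 := by
  refine three_red (by linarith) (by linarith) (by norm_num)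
    (J_ub (r := 0.75) (by linarith) (by linarith) (by norm_num))
    (X10_ub (r := 0.75) (by linarith) (by linarith) (by norm_num))
    (X10_lb (r := 0.79) (by linarith) (by linarith) (by norm_num)) ?_
  norm_num
  nlinarith

theorem goal10_three_big {u : ℝ} (hu0 : 3 / 10 ≤ u) (hu : u ≤ 1 / 2) :
    39 * Jint u (3 / 2) + 9 * Xint u 1 0 (1 / 2) +
      15 * (u * (1 - u)) * Xint u 1 0 (-1 / 2) ≤ 128 := by
  refine three_red (by linarith) (by linarith) (by norm_num)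
    (J_ub (r := 0.72) (by linarith) (by linarith) (by norm_num))
    (X10_ub (r := 0.72) (by linarith) (by linarith) (by norm_num))
    (X10_lb (r := 0.74) (by linarith) (by linarith) (by norm_num)) ?_
  norm_num
  nlinarith

theorem goal01_three_small {u : ℝ} (hu0 : 0 < u) (hu : u ≤ 1 / 5) :
    39 * Jint u (3 / 2) + 9 * Xint u 0 1 (1 / 2) +
      15 * (u * (1 - u)) * Xint u 0 1 (-1 / 2) ≤ 128 := by
  refine three_red (by linarith) (by linarith) (by norm_num)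
    (J_ub (r := 0.8) (by linarith) (by linarith) (by norm_num))
    (X01_ub (by linarith) (by linarith))
    (X01_lb (r := 0.55) (by linarith) (by linarith) (by norm_num)) ?_
  norm_num
  have h1 : 0 ≤ u * (1 / 5 - u) := mul_nonneg hu0.le (by linarith)
  have h2 : 0 ≤ u * (u * (1 / 5 - u)) := mul_nonneg hu0.le h1
  nlinarith

theorem goal01_three_big {u : ℝ} (hu0 : 1 / 5 ≤ u) (hu : u ≤ 1 / 2) :
    39 * Jint u (3 / 2) + 9 * Xint u 0 1 (1 / 2) +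
      15 * (u * (1 - u)) * Xint u 0 1 (-1 / 2) ≤ 128 := by
  refine three_red (by linarith) (by linarith) (by norm_num)
    (J_ub (r := 0.74) (by linarith) (by linarith) (by norm_num))
    (X01_ub (by linarith) (by linarith))
    (X01_lb (r := 0.65) (by linarith) (by linarith) (by norm_num)) ?_
  norm_num
  have h1 : 0 ≤ (u - 1 / 5) * (1 / 2 - u) := mul_nonneg (by linarith) (by linarith)
  have h2 : 0 ≤ (u - 1 / 5) * ((u - 1 / 5) * (1 / 2 - u)) := mul_nonneg (by linarith) h1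
  nlinarith

/-- a Bernstein certificate -/
theorem bern_cert {x u : ℝ} (hx0 : 0 ≤ x) (hx1 : x ≤ 1) (hu0 : 0 ≤ u) (hu : u ≤ 1 / 5) :
    0 ≤ 36 * x ^ 2 * (1 - x) + u * (12 * x - 192 * x ^ 2 + 204 * x ^ 3) +
      u ^ 2 * (9 - 135 * x + 366 * x ^ 2 - 264 * x ^ 3) := by
  have key : ∀ w v y : ℝ, 0 ≤ w → 0 ≤ v → 0 ≤ y → 0 ≤
    (9/25 : ℝ) * w ^ 9 * v ^ 2 + (12/5 : ℝ) * x ^ 1 * w ^ 8 * v ^ 1 * y ^ 1
      + (6/25 : ℝ) * x ^ 1 * w ^ 8 * v ^ 2 + (36 : ℝ) * x ^ 2 * w ^ 7 * y ^ 2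
      + (264/5 : ℝ) * x ^ 2 * w ^ 7 * v ^ 1 * y ^ 1 + (6/5 : ℝ) * x ^ 2 * w ^ 7 * v ^ 2
      + (216 : ℝ) * x ^ 3 * w ^ 6 * y ^ 2 + (1356/5 : ℝ) * x ^ 3 * w ^ 6 * v ^ 1 * y ^ 1
      + (654/25 : ℝ) * x ^ 3 * w ^ 6 * v ^ 2 + (540 : ℝ) * x ^ 4 * w ^ 5 * y ^ 2
      + (3264/5 : ℝ) * x ^ 4 * w ^ 5 * v ^ 1 * y ^ 1 + (2496/25 : ℝ) * x ^ 4 * w ^ 5 * v ^ 2
      + (720 : ℝ) * x ^ 5 * w ^ 4 * y ^ 2 + (876 : ℝ) * x ^ 5 * w ^ 4 * v ^ 1 * y ^ 1
      + (4434/25 : ℝ) * x ^ 5 * w ^ 4 * v ^ 2 + (540 : ℝ) * x ^ 6 * w ^ 3 * y ^ 2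
      + (3432/5 : ℝ) * x ^ 6 * w ^ 3 * v ^ 1 * y ^ 1 + (4386/25 : ℝ) * x ^ 6 * w ^ 3 * v ^ 2
      + (216 : ℝ) * x ^ 7 * w ^ 2 * y ^ 2 + (1524/5 : ℝ) * x ^ 7 * w ^ 2 * v ^ 1 * y ^ 1
      + (498/5 : ℝ) * x ^ 7 * w ^ 2 * v ^ 2 + (36 : ℝ) * x ^ 8 * w ^ 1 * y ^ 2
      + (336/5 : ℝ) * x ^ 8 * w ^ 1 * v ^ 1 * y ^ 1 + (759/25 : ℝ) * x ^ 8 * w ^ 1 * v ^ 2
      + (24/5 : ℝ) * x ^ 9 * v ^ 1 * y ^ 1 + (96/25 : ℝ) * x ^ 9 * v ^ 2 := by
    intro w v y hw hv hy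
    positivity
  have h := key (1 - x) (5 * u) (1 - 5 * u) (by linarith) (by linarith) (by linarith)
  refine h.trans (le_of_eq ?_)
  ring

theorem deriv_int {u : ℝ} (hu0 : 0 < u) (hu : u ≤ 1 / 2) :
    ∫ t in (0 : ℝ)..(2 * π), ((2 * cos t ^ 2 - 1) * Cf u t ^ ((1 : ℝ) / 2) -
      (1 - 2 * u) * (cos t ^ 2 * (1 - cos t ^ 2)) * Cf u t ^ (-(1 : ℝ) / 2)) = 0 := by
  have hder : ∀ t, HasDerivAt (fun t => (sin t * cos t) * Cf u t ^ ((1 : ℝ) / 2))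
      ((2 * cos t ^ 2 - 1) * Cf u t ^ ((1 : ℝ) / 2) -
      (1 - 2 * u) * (cos t ^ 2 * (1 - cos t ^ 2)) * Cf u t ^ (-(1 : ℝ) / 2)) t := by
    intro t
    have hsc : HasDerivAt (fun t => sin t * cos t) (cos t * cos t + sin t * (-sin t)) t :=
      (hasDerivAt_sin t).mul (hasDerivAt_cos t)
    have h := hsc.mul (hasDerivAt_Cf_rpow hu0 hu (1 / 2) t)
    refine h.congr_deriv ?_
    have e : (1 : ℝ) / 2 - 1 = -(1 : ℝ) / 2 := by norm_num
    have hs : sin t ^ 2 = 1 - cos t ^ 2 := by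
      have := sin_sq_add_cos_sq t
      linarith
    rw [e]
    have hy : (sin t * cos t) * (sin t * cos t) = (1 - cos t ^ 2) * cos t ^ 2 := by
      rw [← hs]; ring
    have hz : cos t * cos t + sin t * (-sin t) = 2 * cos t ^ 2 - 1 := by
      linear_combination -hs
    rw [hz]
    linear_combination (1 / 2 * Cf u t ^ (-(1 : ℝ) / 2) * (4 * u - 2)) * hy
  have h1 := continuous_Cf_rpow hu0 hu (1 / 2)
  have h2 := continuous_Cf_rpow hu0 hu (-1 / 2)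
  rw [integral_eq_sub_of_hasDerivAt (fun t _ => hder t)
    ((by fun_prop : Continuous fun t => (2 * cos t ^ 2 - 1) * Cf u t ^ ((1 : ℝ) / 2) -
      (1 - 2 * u) * (cos t ^ 2 * (1 - cos t ^ 2)) * Cf u t ^ (-(1 : ℝ) / 2)).intervalIntegrable
        _ _)]
  simp

theorem three_pointwise {u y z : ℝ} (hu0 : 0 < u) (hu : u ≤ 1 / 5) (hy : 0 ≤ y) (hy1 : y ^ 2 ≤ 1)
    (hz : 0 < z) (hC : z ^ 2 = u + (1 - 2 * u) * y ^ 2) :
    39 * z ^ 3 + 9 * (y ^ 2 * z) + 15 * (u * (1 - u)) * (y ^ 2 * (1 / z)) ≤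
      48 * y ^ 3 + (-(48 * u)) * ((2 * y ^ 2 - 1) * z -
        (1 - 2 * u) * (y ^ 2 * (1 - y ^ 2)) * (1 / z)) := by
  have hb := bern_cert (x := y ^ 2) (by positivity) hy1 hu0.le hu
  set x := y ^ 2 with hx
  have hx0 : 0 ≤ x := by positivity
  -- multiply by z
  have hmul : 0 ≤ z * (48 * y ^ 3 + (-(48 * u)) * ((2 * x - 1) * z -
        (1 - 2 * u) * (x * (1 - x)) * (1 / z)) - (39 * z ^ 3 + 9 * (x * z) +
        15 * (u * (1 - u)) * (x * (1 / z)))) := by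
    have e : z * (48 * y ^ 3 + (-(48 * u)) * ((2 * x - 1) * z -
        (1 - 2 * u) * (x * (1 - x)) * (1 / z)) - (39 * z ^ 3 + 9 * (x * z) +
        15 * (u * (1 - u)) * (x * (1 / z)))) =
        48 * x * (y * z) - (39 * (z ^ 2) ^ 2 + 9 * (x * z ^ 2) + 15 * (u * (1 - u)) * x +
          48 * u * ((2 * x - 1) * z ^ 2 - (1 - 2 * u) * (x * (1 - x)))) := by
      field_simp
      rw [hx]
      ring
    rw [e]
    -- multiply by x + C
    have hpos : 0 < x + z ^ 2 := by positivity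
    have h1 : 2 * x * z ^ 2 ≤ (y * z) * (x + z ^ 2) := by
      have h2 : 0 ≤ (y * z) * (y - z) ^ 2 := by positivity
      rw [hx]
      nlinarith
    refine nonneg_of_mul_nonneg_right (b := _) ?_ hpos
    have h3 := mul_le_mul_of_nonneg_left h1 (by positivity : 0 ≤ 48 * x)
    have h4 : (x + z ^ 2) * (48 * x * (y * z) - (39 * (z ^ 2) ^ 2 + 9 * (x * z ^ 2) +
        15 * (u * (1 - u)) * x + 48 * u * ((2 * x - 1) * z ^ 2 - (1 - 2 * u) * (x * (1 - x))))) =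
        (48 * x * ((y * z) * (x + z ^ 2)) - 48 * x * (2 * x * z ^ 2)) +
        (48 * x * (2 * x * z ^ 2) - (x + z ^ 2) * (39 * (z ^ 2) ^ 2 + 9 * (x * z ^ 2) +
        15 * (u * (1 - u)) * x + 48 * u * ((2 * x - 1) * z ^ 2 - (1 - 2 * u) * (x * (1 - x))))) := by
      ring
    rw [h4]
    have h5 : 48 * x * (2 * x * z ^ 2) - (x + z ^ 2) * (39 * (z ^ 2) ^ 2 + 9 * (x * z ^ 2) +
        15 * (u * (1 - u)) * x + 48 * u * ((2 * x - 1) * z ^ 2 - (1 - 2 * u) * (x * (1 - x)))) =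
        u * (36 * x ^ 2 * (1 - x) + u * (12 * x - 192 * x ^ 2 + 204 * x ^ 3) +
      u ^ 2 * (9 - 135 * x + 366 * x ^ 2 - 264 * x ^ 3)) := by
      rw [hC]
      ring
    rw [h5]
    have h6 := mul_nonneg hu0.le hb
    linarith
  have := nonneg_of_mul_nonneg_right hmul hz
  linarith

theorem goal10_three_small {u : ℝ} (hu0 : 0 < u) (hu : u ≤ 1 / 5) :
    39 * Jint u (3 / 2) + 9 * Xint u 1 0 (1 / 2) +
      15 * (u * (1 - u)) * Xint u 1 0 (-1 / 2) ≤ 128 := by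
  have hu2 : u ≤ 1 / 2 := by linarith
  have c3 := continuous_Cf_rpow hu0 hu2 (3 / 2)
  have c1 := continuous_Cf_rpow hu0 hu2 (1 / 2)
  have c0 := continuous_Cf_rpow hu0 hu2 (-1 / 2)
  have hk := continuous_kf 1 0
  have hD : Continuous fun t => (2 * cos t ^ 2 - 1) * Cf u t ^ ((1 : ℝ) / 2) -
      (1 - 2 * u) * (cos t ^ 2 * (1 - cos t ^ 2)) * Cf u t ^ (-(1 : ℝ) / 2) := by fun_prop
  have hL : ∫ t in (0 : ℝ)..(2 * π), ((39 * Cf u t ^ ((3 : ℝ) / 2) +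
      9 * (kf 1 0 t * Cf u t ^ ((1 : ℝ) / 2))) +
      (15 * (u * (1 - u))) * (kf 1 0 t * Cf u t ^ (-(1 : ℝ) / 2))) =
      39 * Jint u (3 / 2) + 9 * Xint u 1 0 (1 / 2) +
      15 * (u * (1 - u)) * Xint u 1 0 (-1 / 2) := by
    rw [int_add (by fun_prop) (by fun_prop), int_add (by fun_prop) (by fun_prop),
      integral_const_mul, integral_const_mul, integral_const_mul]
    rfl
  have hR : ∫ t in (0 : ℝ)..(2 * π), (48 * |cos t| ^ 3 +
      (-(48 * u)) * ((2 * cos t ^ 2 - 1) * Cf u t ^ ((1 : ℝ) / 2) -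
      (1 - 2 * u) * (cos t ^ 2 * (1 - cos t ^ 2)) * Cf u t ^ (-(1 : ℝ) / 2))) = 128 := by
    rw [int_add (by fun_prop) (by fun_prop), integral_const_mul, integral_const_mul,
      deriv_int hu0 hu2]
    have : ∫ t in (0 : ℝ)..(2 * π), |cos t| ^ 3 = 8 / 3 := by
      have h := gint_three
      rwa [gint] at h
    rw [this]
    norm_num
  rw [← hL, ← hR]
  refine int_mono (by fun_prop) (by fun_prop) fun t => ?_
  have hpos := Cf_pos hu0 hu2 t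
  rw [rpow_three_half_eq hpos, rpow_half_eq hpos, rpow_neg_half_eq hpos, kf10, ← sq_abs (cos t)]
  refine three_pointwise hu0 hu (abs_nonneg _) ?_ (sqrt_pos.mpr hpos) ?_
  · rw [sq_abs]; exact cos_sq_le_one t
  · rw [sq_sqrt hpos.le, Cf_eq, sq_abs]

theorem goal10_three {u : ℝ} (hu0 : 0 < u) (hu : u ≤ 1 / 2) :
    39 * Jint u (3 / 2) + 9 * Xint u 1 0 (1 / 2) +
      15 * (u * (1 - u)) * Xint u 1 0 (-1 / 2) ≤ 128 := by
  rcases le_total u (1 / 5) with h | h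
  · exact goal10_three_small hu0 h
  · rcases le_total u (3 / 10) with h' | h'
    · exact goal10_three_mid h h'
    · exact goal10_three_big h' hu

theorem goal01_three {u : ℝ} (hu0 : 0 < u) (hu : u ≤ 1 / 2) :
    39 * Jint u (3 / 2) + 9 * Xint u 0 1 (1 / 2) +
      15 * (u * (1 - u)) * Xint u 0 1 (-1 / 2) ≤ 128 := by
  rcases le_total u (1 / 5) with h | h
  · exact goal01_three_small hu0 h
  · exact goal01_three_big h hu

/-- (W) -/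
theorem onevar_ineq {n : ℕ} (hn : 3 ≤ n) (u : ℝ) (hu0 : 0 < u) (hu : u ≤ 1 / 2) (a b g : ℝ)
    (ha : 0 ≤ a) (hb : 0 ≤ b) (hab : a + b = 1) :
    (∫ t in (0 : ℝ)..(2 * π),
      ((2 * n + 3) * (((1 - u) * cos t ^ 2 + u * sin t ^ 2) ^ ((n : ℝ) / 2)
          + n * (a * cos t ^ 2 + b * sin t ^ 2 + g * (sin t * cos t))
            * ((1 - u) * cos t ^ 2 + u * sin t ^ 2) ^ ((n : ℝ) / 2 - 1))
        - (3 * n + 6) * (a * cos t ^ 2 + b * sin t ^ 2 + g * (sin t * cos t))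
            * ((1 - u) * cos t ^ 2 + u * sin t ^ 2) ^ ((n : ℝ) / 2)
        + (n + 3) * (u * (1 - u)) * (a * cos t ^ 2 + b * sin t ^ 2 + g * (sin t * cos t))
            * ((1 - u) * cos t ^ 2 + u * sin t ^ 2) ^ ((n : ℝ) / 2 - 2)))
      ≤ 2 * (n + 1) * n * (2 * (∫ t in (0 : ℝ)..(2 * π), |cos t| ^ n)
          - ∫ t in (0 : ℝ)..(2 * π), ((1 - u) * cos t ^ 2 + u * sin t ^ 2) ^ ((n : ℝ) / 2)) := by
  rcases Nat.lt_or_ge n 5 with h5 | h5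
  · rcases Nat.lt_or_ge n 4 with h4 | h4
    · obtain rfl : n = 3 := by omega
      refine W_reduction hn hu0 hu ?_ ?_ a b g ha hb hab
      · have h := goal10_three hu0 hu
        have e0 : ((3 : ℕ) : ℝ) / 2 = 3 / 2 := by norm_num
        have e1 : ((3 : ℕ) : ℝ) / 2 - 1 = 1 / 2 := by norm_num
        have e2 : ((3 : ℕ) : ℝ) / 2 - 2 = -1 / 2 := by norm_num
        rw [e1, e2, e0, gint_three]
        push_cast
        linarith
      · have h := goal01_three hu0 hu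
        have e0 : ((3 : ℕ) : ℝ) / 2 = 3 / 2 := by norm_num
        have e1 : ((3 : ℕ) : ℝ) / 2 - 1 = 1 / 2 := by norm_num
        have e2 : ((3 : ℕ) : ℝ) / 2 - 2 = -1 / 2 := by norm_num
        rw [e1, e2, e0, gint_three]
        push_cast
        linarith
    · obtain rfl : n = 4 := by omega
      refine W_reduction hn hu0 hu ?_ ?_ a b g ha hb hab
      · have h := goal10_four hu0 hu
        have e0 : ((4 : ℕ) : ℝ) / 2 = 2 := by norm_num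
        have e1 : ((4 : ℕ) : ℝ) / 2 - 1 = 1 := by norm_num
        have e2 : ((4 : ℕ) : ℝ) / 2 - 2 = 0 := by norm_num
        rw [e1, e2, e0]
        push_cast
        linarith
      · have h := goal01_four hu0 hu
        have e0 : ((4 : ℕ) : ℝ) / 2 = 2 := by norm_num
        have e1 : ((4 : ℕ) : ℝ) / 2 - 1 = 1 := by norm_num
        have e2 : ((4 : ℕ) : ℝ) / 2 - 2 = 0 := by norm_num
        rw [e1, e2, e0]
        push_cast
        linarith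
  · exact W_reduction hn hu0 hu (goal10_large h5 hu0 hu) (goal01_large h5 hu0 hu) a b g ha hb hab

end Pool.Agent.Helper77.OneVar
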