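import Mathlib

/-!
# A one-variable integral inequality (helper file for MP_19c155_gt)
-/

namespace Pool.Agent.Helper77.OneVar

open Real intervalIntegral

/-- the function `(1-u) cos^2 + u sin^2` -/
noncomputable def Cf (u t : ℝ) : ℝ := (1 - u) * cos t ^ 2 + u * sin t ^ 2

/-- the function `a cos^2 + b sin^2` -/
noncomputable def kf (a b t : ℝ) : ℝ := a * cos t ^ 2 + b * sin t ^ 2

theorem Cf_ge {u : ℝ} (hu : u ≤ 1 / 2) (t : ℝ) : u ≤ Cf u t := by
  unfold Cf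
  have h1 := sin_sq_add_cos_sq t
  have h2 := sq_nonneg (cos t)
  nlinarith

theorem Cf_pos {u : ℝ} (hu0 : 0 < u) (hu : u ≤ 1 / 2) (t : ℝ) : 0 < Cf u t :=
  lt_of_lt_of_le hu0 (Cf_ge hu t)

theorem Cf_eq (u t : ℝ) : Cf u t = u + (1 - 2 * u) * cos t ^ 2 := by
  unfold Cf
  have h1 := sin_sq_add_cos_sq t
  linear_combination u * h1

theorem continuous_Cf (u : ℝ) : Continuous (Cf u) := by
  unfold Cf; fun_prop

theorem continuous_kf (a b : ℝ) : Continuous (kf a b) := by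
  unfold kf; fun_prop

theorem continuous_Cf_rpow {u : ℝ} (hu0 : 0 < u) (hu : u ≤ 1 / 2) (s : ℝ) :
    Continuous (fun t => Cf u t ^ s) :=
  (continuous_Cf u).rpow_const fun t => Or.inl (Cf_pos hu0 hu t).ne'

theorem hasDerivAt_Cf (u t : ℝ) : HasDerivAt (Cf u) ((4 * u - 2) * (sin t * cos t)) t := by
  have h1 : HasDerivAt (fun t => (1 - u) * cos t ^ 2 + u * sin t ^ 2)
      ((1 - u) * ((2 : ℕ) * cos t ^ (2 - 1) * (-sin t)) +
        u * ((2 : ℕ) * sin t ^ (2 - 1) * cos t)) t :=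
    (((hasDerivAt_cos t).pow 2).const_mul (1 - u)).add
      (((hasDerivAt_sin t).pow 2).const_mul u)
  refine h1.congr_deriv ?_
  push_cast
  ring

theorem hasDerivAt_Cf_rpow {u : ℝ} (hu0 : 0 < u) (hu : u ≤ 1 / 2) (s t : ℝ) :
    HasDerivAt (fun t => Cf u t ^ s) (s * Cf u t ^ (s - 1) * ((4 * u - 2) * (sin t * cos t))) t := by
  have := (hasDerivAt_Cf u t).rpow_const (p := s) (Or.inl (Cf_pos hu0 hu t).ne')
  refine this.congr_deriv ?_
  ring

/-- the integration by parts identity -/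
theorem ibp {u : ℝ} (hu0 : 0 < u) (hu : u ≤ 1 / 2) {a b : ℝ} (hab : a + b = 1) (p : ℝ) :
    ∫ t in (0 : ℝ)..(2 * π), ((2 - 4 * kf a b t) * Cf u t ^ p -
      kf a b t * ((4 * p ^ 2 - 2 * p) * Cf u t ^ (p - 1) - 4 * p ^ 2 * Cf u t ^ p -
        4 * p * (p - 1) * (u * (1 - u)) * Cf u t ^ (p - 2))) = 0 := by
  set H : ℝ → ℝ := fun t => (2 * b - 2 * a) * (sin t * cos t) * Cf u t ^ p -
    (kf a b t * (p * Cf u t ^ (p - 1))) * ((4 * u - 2) * (sin t * cos t)) with hH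
  have hder : ∀ t, HasDerivAt H ((2 - 4 * kf a b t) * Cf u t ^ p -
      kf a b t * ((4 * p ^ 2 - 2 * p) * Cf u t ^ (p - 1) - 4 * p ^ 2 * Cf u t ^ p -
        4 * p * (p - 1) * (u * (1 - u)) * Cf u t ^ (p - 2))) t := by
    intro t
    have hsc : HasDerivAt (fun t => sin t * cos t) (cos t * cos t + sin t * (-sin t)) t :=
      (hasDerivAt_sin t).mul (hasDerivAt_cos t)
    have hk : HasDerivAt (kf a b) ((2 * b - 2 * a) * (sin t * cos t)) t := by
      have h1 : HasDerivAt (fun t => a * cos t ^ 2 + b * sin t ^ 2)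
          (a * ((2 : ℕ) * cos t ^ (2 - 1) * (-sin t)) +
            b * ((2 : ℕ) * sin t ^ (2 - 1) * cos t)) t :=
        (((hasDerivAt_cos t).pow 2).const_mul a).add
          (((hasDerivAt_sin t).pow 2).const_mul b)
      refine h1.congr_deriv ?_
      push_cast
      ring
    have hC := hasDerivAt_Cf_rpow hu0 hu p t
    have hC1 := hasDerivAt_Cf_rpow hu0 hu (p - 1) t
    have h1 := ((hsc.const_mul (2 * b - 2 * a)).mul hC).sub
      ((hk.mul (hC1.const_mul p)).mul (hsc.const_mul (4 * u - 2)))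
    refine h1.congr_deriv ?_
    have hpos := Cf_pos hu0 hu t
    have e1 : Cf u t ^ (p - 1) = Cf u t ^ (p - 2) * Cf u t := by
      rw [← rpow_add_one hpos.ne']; congr 1; ring
    have e2 : Cf u t ^ p = Cf u t ^ (p - 2) * Cf u t ^ 2 := by
      rw [← rpow_add_natCast hpos.ne']; congr 1; push_cast; ring
    have e3 : Cf u t ^ (p - 1 - 1) = Cf u t ^ (p - 2) := by congr 1; ring
    have hs : sin t ^ 2 = 1 - cos t ^ 2 := by
      have := sin_sq_add_cos_sq t
      linarith only [this]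
    have hCe := Cf_eq u t
    have hke : kf a b t = b + (a - b) * cos t ^ 2 := by
      unfold kf; rw [hs]; ring
    have hy : (sin t * cos t) * (sin t * cos t) = (1 - cos t ^ 2) * cos t ^ 2 := by
      rw [← hs]; ring
    have hz : cos t * cos t + sin t * (-sin t) = 2 * cos t ^ 2 - 1 := by
      linear_combination -hs
    simp only [Pi.mul_apply]
    rw [hz, e3, e2, e1]
    set D := Cf u t ^ (p - 2)
    rw [hke, hCe]
    have hb : b = 1 - a := by linarith only [hab]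
    rw [hb]
    linear_combination (-(1 - a + (a - (1 - a)) * cos t ^ 2) * p * (p - 1) * D *
      (4 * u - 2) ^ 2) * hy
  have hcont : Continuous (fun t => (2 - 4 * kf a b t) * Cf u t ^ p -
      kf a b t * ((4 * p ^ 2 - 2 * p) * Cf u t ^ (p - 1) - 4 * p ^ 2 * Cf u t ^ p -
        4 * p * (p - 1) * (u * (1 - u)) * Cf u t ^ (p - 2))) := by
    have h1 := continuous_Cf_rpow hu0 hu p
    have h2 := continuous_Cf_rpow hu0 hu (p - 1)
    have h3 := continuous_Cf_rpow hu0 hu (p - 2)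
    have h4 := continuous_kf a b
    fun_prop
  rw [integral_eq_sub_of_hasDerivAt (fun t _ => hder t) (hcont.intervalIntegrable _ _)]
  simp [hH]

/-! ### The integrals of `|cos|^n` -/

/-- the integral of `|cos|^n` over a period -/
noncomputable def gint (n : ℕ) : ℝ := ∫ t in (0 : ℝ)..(2 * π), |cos t| ^ n

theorem abs_sin_int (n : ℕ) :
    ∫ t in (0 : ℝ)..(2 * π), |sin t| ^ n = 2 * ∫ t in (0 : ℝ)..π, sin t ^ n := by
  have hc : Continuous fun t : ℝ => |sin t| ^ n := by fun_prop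
  have h1 := integral_add_adjacent_intervals (hc.intervalIntegrable (μ := MeasureTheory.volume) 0 π)
    (hc.intervalIntegrable π (2 * π))
  rw [← h1]
  have h2 : ∫ t in (0 : ℝ)..π, |sin t| ^ n = ∫ t in (0 : ℝ)..π, sin t ^ n := by
    refine integral_congr fun t ht => ?_
    rw [Set.uIcc_of_le pi_pos.le] at ht
    rw [abs_of_nonneg (sin_nonneg_of_mem_Icc ht)]
  have h3 : ∫ t in π..(2 * π), |sin t| ^ n = ∫ t in (0 : ℝ)..π, |sin t| ^ n := by
    have h4 := integral_comp_add_right (a := 0) (b := π) (fun t : ℝ => |sin t| ^ n) π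
    rw [zero_add, ← two_mul] at h4
    rw [← h4]
    refine integral_congr fun t _ => ?_
    simp only [sin_add_pi, abs_neg]
  rw [h3, h2]
  ring

theorem abs_sin_eq_gint (n : ℕ) : ∫ t in (0 : ℝ)..(2 * π), |sin t| ^ n = gint n := by
  have hper : Function.Periodic (fun t : ℝ => |sin t| ^ n) (2 * π) := by
    intro t
    simp only [sin_add_two_pi]
  have h1 := hper.intervalIntegral_add_eq (π / 2) 0
  have h2 := integral_comp_add_right (a := 0) (b := 2 * π) (fun t : ℝ => |sin t| ^ n) (π / 2)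
  rw [zero_add, add_comm (2 * π) (π / 2), h1, zero_add] at h2
  rw [← h2, gint]
  refine integral_congr fun t _ => ?_
  simp only [sin_add_pi_div_two]

theorem gint_eq (n : ℕ) : gint n = 2 * ∫ t in (0 : ℝ)..π, sin t ^ n := by
  rw [← abs_sin_eq_gint, abs_sin_int]

theorem gint_succ (n : ℕ) : gint (n + 2) = (n + 1) / (n + 2) * gint n := by
  rw [gint_eq, gint_eq, integral_sin_pow]
  simp
  ring

theorem gint_zero : gint 0 = 2 * π := by
  simp [gint]

theorem gint_one : gint 1 = 4 := by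
  rw [gint_eq]
  simp only [pow_one, integral_sin, cos_zero, cos_pi]
  norm_num

theorem gint_pos (n : ℕ) : 0 < gint n := by
  rw [gint_eq]
  have := integral_sin_pow_pos (n := n)
  linarith

theorem gint_two : gint 2 = π := by
  rw [gint_succ, gint_zero]; push_cast; ring

theorem gint_three : gint 3 = 8 / 3 := by
  rw [gint_succ, gint_one]; push_cast; ring

theorem gint_four : gint 4 = 3 / 4 * π := by
  rw [gint_succ, gint_two]; push_cast; ring

theorem gint_five : gint 5 = 32 / 15 := by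
  rw [gint_succ, gint_three]; push_cast; ring

theorem gint_six : gint 6 = 5 / 8 * π := by
  rw [gint_succ, gint_four]; push_cast; ring

theorem gint_eight : gint 8 = 35 / 64 * π := by
  rw [gint_succ, gint_six]; push_cast; ring

/-- `(5/6) G ≥ M` with `M = 2 π 2^(-n/2)` -/
theorem gint_lower (n : ℕ) (hn : 5 ≤ n) :
    2 * π * (1 / 2 : ℝ) ^ ((n : ℝ) / 2) ≤ 5 / 6 * gint n := by
  induction n using Nat.strong_induction_on with
  | _ n ih =>
    rcases Nat.lt_or_ge n 7 with h | h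
    · interval_cases n
      · rw [gint_five]
        have h1 : (1 / 2 : ℝ) ^ (((5 : ℕ) : ℝ) / 2) ≤ 0.1768 := by
          have h2 : ((1 / 2 : ℝ) ^ (((5 : ℕ) : ℝ) / 2)) ^ 2 = 1 / 32 := by
            rw [← rpow_natCast, ← rpow_mul (by norm_num)]
            have : ((5 : ℕ) : ℝ) / 2 * ((2 : ℕ) : ℝ) = ((5 : ℕ) : ℝ) := by push_cast; ring
            rw [this, rpow_natCast]
            norm_num
          have h3 : 0 ≤ (1 / 2 : ℝ) ^ (((5 : ℕ) : ℝ) / 2) := by positivity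
          nlinarith only [h2, h3]
        have h2 := pi_lt_d2
        have h3 := pi_pos
        nlinarith only [h2, h1, h3]
      · rw [gint_six]
        have h1 : (1 / 2 : ℝ) ^ (((6 : ℕ) : ℝ) / 2) = 1 / 8 := by
          have : ((6 : ℕ) : ℝ) / 2 = ((3 : ℕ) : ℝ) := by push_cast; ring
          rw [this, rpow_natCast]
          norm_num
        rw [h1]
        have h3 := pi_pos
        linarith only [h3]
    · obtain ⟨m, rfl⟩ : ∃ m, n = m + 2 := ⟨n - 2, by omega⟩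
      have h1 := ih m (by omega) (by omega)
      rw [gint_succ]
      have h2 : (1 / 2 : ℝ) ^ (((m + 2 : ℕ) : ℝ) / 2) = (1 / 2) ^ ((m : ℝ) / 2) * (1 / 2) := by
        rw [← rpow_add_one (by norm_num)]
        congr 1
        push_cast; ring
      rw [h2]
      have h3 := gint_pos m
      have h4 : (1 / 2 : ℝ) ≤ (m + 1) / (m + 2) := by
        rw [div_le_div_iff₀ (by norm_num) (by positivity)]
        have : (0 : ℝ) ≤ m := by positivity
        linarith only []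
      have h5 : 1 / 2 * gint m ≤ (m + 1) / (m + 2) * gint m :=
        mul_le_mul_of_nonneg_right h4 h3.le
      linarith only [h1, h5]

/-! ### Reduction -/

/-- integral of a power of `Cf` -/
noncomputable def Jint (u s : ℝ) : ℝ := ∫ t in (0 : ℝ)..(2 * π), Cf u t ^ s

/-- integral of `kf` times a power of `Cf` -/
noncomputable def Xint (u a b s : ℝ) : ℝ := ∫ t in (0 : ℝ)..(2 * π), kf a b t * Cf u t ^ s

theorem sc_int {u : ℝ} (s : ℝ) :
    ∫ t in (0 : ℝ)..(2 * π), (sin t * cos t) * Cf u t ^ s = 0 := by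
  have h1 := integral_comp_sub_left (a := 0) (b := 2 * π)
    (fun t : ℝ => (sin t * cos t) * Cf u t ^ s) (2 * π)
  rw [sub_self, sub_zero] at h1
  have h2 : ∫ t in (0 : ℝ)..(2 * π), (sin (2 * π - t) * cos (2 * π - t)) * Cf u (2 * π - t) ^ s =
      ∫ t in (0 : ℝ)..(2 * π), -((sin t * cos t) * Cf u t ^ s) := by
    refine integral_congr fun t _ => ?_
    have h3 : Cf u (2 * π - t) = Cf u t := by
      unfold Cf
      rw [sin_two_pi_sub, cos_two_pi_sub]
      ring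
    simp only [h3, sin_two_pi_sub, cos_two_pi_sub]
    ring
  rw [h2, integral_neg] at h1
  linarith

theorem Xint_lin {u : ℝ} (hu0 : 0 < u) (hu : u ≤ 1 / 2) (a b s : ℝ) :
    Xint u a b s = a * Xint u 1 0 s + b * Xint u 0 1 s := by
  have hC := continuous_Cf_rpow hu0 hu s
  have h1 := continuous_kf 1 0
  have h2 := continuous_kf 0 1
  unfold Xint
  rw [← integral_const_mul, ← integral_const_mul, ← integral_add]
  · refine integral_congr fun t _ => ?_
    simp only [kf]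
    ring
  · exact (by fun_prop : Continuous fun t => a * (kf 1 0 t * Cf u t ^ s)).intervalIntegrable _ _
  · exact (by fun_prop : Continuous fun t => b * (kf 0 1 t * Cf u t ^ s)).intervalIntegrable _ _

theorem Jint_eq {u : ℝ} (s : ℝ) (a b : ℝ) (hab : a = 1 ∧ b = 1) : Jint u s = Xint u a b s := by
  obtain ⟨rfl, rfl⟩ := hab
  unfold Jint Xint
  refine integral_congr fun t _ => ?_
  have : kf 1 1 t = 1 := by
    unfold kf; linarith [sin_sq_add_cos_sq t]
  simp only [this, one_mul]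

/-- the integration by parts identity, integrated -/
theorem ibp' {u : ℝ} (hu0 : 0 < u) (hu : u ≤ 1 / 2) {a b : ℝ} (hab : a + b = 1) (n : ℝ) :
    2 * Jint u (n / 2) - 4 * Xint u a b (n / 2) - (n ^ 2 - n) * Xint u a b (n / 2 - 1) +
      n ^ 2 * Xint u a b (n / 2) + n * (n - 2) * (u * (1 - u)) * Xint u a b (n / 2 - 2) = 0 := by
  have h := ibp hu0 hu hab (n / 2)
  have h1 := continuous_Cf_rpow hu0 hu (n / 2)
  have h2 := continuous_Cf_rpow hu0 hu (n / 2 - 1)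
  have h3 := continuous_Cf_rpow hu0 hu (n / 2 - 2)
  have h4 := continuous_kf a b
  have e : (fun t => (2 - 4 * kf a b t) * Cf u t ^ (n / 2) -
      kf a b t * ((4 * (n / 2) ^ 2 - 2 * (n / 2)) * Cf u t ^ (n / 2 - 1) -
        4 * (n / 2) ^ 2 * Cf u t ^ (n / 2) -
        4 * (n / 2) * (n / 2 - 1) * (u * (1 - u)) * Cf u t ^ (n / 2 - 2))) =
      fun t => (((2 * Cf u t ^ (n / 2) - 4 * (kf a b t * Cf u t ^ (n / 2))) -
        (n ^ 2 - n) * (kf a b t * Cf u t ^ (n / 2 - 1))) +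
        n ^ 2 * (kf a b t * Cf u t ^ (n / 2))) +
        n * (n - 2) * (u * (1 - u)) * (kf a b t * Cf u t ^ (n / 2 - 2)) := by
    funext t
    ring
  rw [e] at h
  rw [integral_add, integral_add, integral_sub, integral_sub, integral_const_mul,
    integral_const_mul, integral_const_mul, integral_const_mul, integral_const_mul] at h
  · unfold Jint Xint
    exact h
  all_goals
    apply Continuous.intervalIntegrable
    fun_prop

theorem W_reduction {n : ℕ} (hn : 3 ≤ n) {u : ℝ} (hu0 : 0 < u) (hu : u ≤ 1 / 2)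
    (h10 : ((2 * (n : ℝ) ^ 2 + 4 * n + 3) * (n - 2) + 6) * Jint u (n / 2) +
      n * (2 * n ^ 2 - 4 * n - 3) * Xint u 1 0 (n / 2 - 1) +
      (4 * n + 3) * (n - 2) * (u * (1 - u)) * Xint u 1 0 (n / 2 - 2) ≤
        4 * n * (n + 1) * (n - 2) * gint n)
    (h01 : ((2 * (n : ℝ) ^ 2 + 4 * n + 3) * (n - 2) + 6) * Jint u (n / 2) +
      n * (2 * n ^ 2 - 4 * n - 3) * Xint u 0 1 (n / 2 - 1) +
      (4 * n + 3) * (n - 2) * (u * (1 - u)) * Xint u 0 1 (n / 2 - 2) ≤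
        4 * n * (n + 1) * (n - 2) * gint n)
    (a b g : ℝ) (ha : 0 ≤ a) (hb : 0 ≤ b) (hab : a + b = 1) :
    (∫ t in (0 : ℝ)..(2 * π),
      ((2 * n + 3) * (((1 - u) * cos t ^ 2 + u * sin t ^ 2) ^ ((n : ℝ) / 2)
          + n * (a * cos t ^ 2 + b * sin t ^ 2 + g * (sin t * cos t))
            * ((1 - u) * cos t ^ 2 + u * sin t ^ 2) ^ ((n : ℝ) / 2 - 1))
        - (3 * n + 6) * (a * cos t ^ 2 + b * sin t ^ 2 + g * (sin t * cos t))
            * ((1 - u) * cos t ^ 2 + u * sin t ^ 2) ^ ((n : ℝ) / 2)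
        + (n + 3) * (u * (1 - u)) * (a * cos t ^ 2 + b * sin t ^ 2 + g * (sin t * cos t))
            * ((1 - u) * cos t ^ 2 + u * sin t ^ 2) ^ ((n : ℝ) / 2 - 2)))
      ≤ 2 * (n + 1) * n * (2 * (∫ t in (0 : ℝ)..(2 * π), |cos t| ^ n)
          - ∫ t in (0 : ℝ)..(2 * π), ((1 - u) * cos t ^ 2 + u * sin t ^ 2) ^ ((n : ℝ) / 2)) := by
  have hn3 : (3 : ℝ) ≤ n := by exact_mod_cast hn
  have h1 := continuous_Cf_rpow hu0 hu ((n : ℝ) / 2)
  have h2 := continuous_Cf_rpow hu0 hu ((n : ℝ) / 2 - 1)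
  have h3 := continuous_Cf_rpow hu0 hu ((n : ℝ) / 2 - 2)
  have h4 := continuous_kf a b
  have e : (∫ t in (0 : ℝ)..(2 * π),
      ((2 * n + 3) * (((1 - u) * cos t ^ 2 + u * sin t ^ 2) ^ ((n : ℝ) / 2)
          + n * (a * cos t ^ 2 + b * sin t ^ 2 + g * (sin t * cos t))
            * ((1 - u) * cos t ^ 2 + u * sin t ^ 2) ^ ((n : ℝ) / 2 - 1))
        - (3 * n + 6) * (a * cos t ^ 2 + b * sin t ^ 2 + g * (sin t * cos t))
            * ((1 - u) * cos t ^ 2 + u * sin t ^ 2) ^ ((n : ℝ) / 2)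
        + (n + 3) * (u * (1 - u)) * (a * cos t ^ 2 + b * sin t ^ 2 + g * (sin t * cos t))
            * ((1 - u) * cos t ^ 2 + u * sin t ^ 2) ^ ((n : ℝ) / 2 - 2))) =
      (2 * n + 3) * Jint u (n / 2) + (2 * n + 3) * n * Xint u a b (n / 2 - 1) -
        (3 * n + 6) * Xint u a b (n / 2) + (n + 3) * (u * (1 - u)) * Xint u a b (n / 2 - 2) := by
    have e1 : (fun t : ℝ => ((2 * (n : ℝ) + 3) * (((1 - u) * cos t ^ 2 + u * sin t ^ 2) ^ ((n : ℝ) / 2)
          + n * (a * cos t ^ 2 + b * sin t ^ 2 + g * (sin t * cos t))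
            * ((1 - u) * cos t ^ 2 + u * sin t ^ 2) ^ ((n : ℝ) / 2 - 1))
        - (3 * n + 6) * (a * cos t ^ 2 + b * sin t ^ 2 + g * (sin t * cos t))
            * ((1 - u) * cos t ^ 2 + u * sin t ^ 2) ^ ((n : ℝ) / 2)
        + (n + 3) * (u * (1 - u)) * (a * cos t ^ 2 + b * sin t ^ 2 + g * (sin t * cos t))
            * ((1 - u) * cos t ^ 2 + u * sin t ^ 2) ^ ((n : ℝ) / 2 - 2))) =
        fun t => ((((((2 * n + 3) * Cf u t ^ ((n : ℝ) / 2) +
          (2 * n + 3) * n * (kf a b t * Cf u t ^ ((n : ℝ) / 2 - 1))) -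
          (3 * n + 6) * (kf a b t * Cf u t ^ ((n : ℝ) / 2))) +
          (n + 3) * (u * (1 - u)) * (kf a b t * Cf u t ^ ((n : ℝ) / 2 - 2))) +
          ((2 * n + 3) * n * g) * ((sin t * cos t) * Cf u t ^ ((n : ℝ) / 2 - 1))) -
          ((3 * n + 6) * g) * ((sin t * cos t) * Cf u t ^ ((n : ℝ) / 2))) +
          ((n + 3) * (u * (1 - u)) * g) * ((sin t * cos t) * Cf u t ^ ((n : ℝ) / 2 - 2)) := by
      funext t
      unfold Cf kf
      ring
    rw [e1, integral_add, integral_sub, integral_add, integral_add, integral_sub, integral_add]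
    · simp only [integral_const_mul, sc_int]
      unfold Jint Xint
      ring
    all_goals
      apply Continuous.intervalIntegrable
      fun_prop
  rw [e]
  have hJ : ∫ t in (0 : ℝ)..(2 * π), ((1 - u) * cos t ^ 2 + u * sin t ^ 2) ^ ((n : ℝ) / 2) =
      Jint u (n / 2) := rfl
  have hG : ∫ t in (0 : ℝ)..(2 * π), |cos t| ^ n = gint n := rfl
  rw [hJ, hG]
  have hibp := ibp' hu0 hu hab (n : ℝ)
  have hx1 := Xint_lin hu0 hu a b ((n : ℝ) / 2 - 1)
  have hx2 := Xint_lin hu0 hu a b ((n : ℝ) / 2 - 2)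
  set J := Jint u (n / 2)
  set X0 := Xint u a b (n / 2)
  set X1 := Xint u a b (n / 2 - 1)
  set X2 := Xint u a b (n / 2 - 2)
  have hmain : ((2 * (n : ℝ) ^ 2 + 4 * n + 3) * (n - 2) + 6) * J +
      n * (2 * n ^ 2 - 4 * n - 3) * X1 +
      (4 * n + 3) * (n - 2) * (u * (1 - u)) * X2 ≤ 4 * n * (n + 1) * (n - 2) * gint n := by
    have h5 := mul_le_mul_of_nonneg_left h10 ha
    have h6 := mul_le_mul_of_nonneg_left h01 hb
    rw [hx1, hx2]
    have h7 : ((2 * (n : ℝ) ^ 2 + 4 * n + 3) * (n - 2) + 6) * J =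
        (a + b) * (((2 * (n : ℝ) ^ 2 + 4 * n + 3) * (n - 2) + 6) * J) := by
      rw [hab, one_mul]
    have h8 : 4 * (n : ℝ) * (n + 1) * (n - 2) * gint n =
        (a + b) * (4 * (n : ℝ) * (n + 1) * (n - 2) * gint n) := by
      rw [hab, one_mul]
    rw [h7, h8]
    linarith
  -- multiply the claim by (n - 2)
  have hn2 : (0 : ℝ) < n - 2 := by linarith only [hu0, hu, hn3]
  have hX0 : (n - 2 : ℝ) * ((n + 2) * X0) = (n ^ 2 - n) * X1 -
      n * (n - 2) * (u * (1 - u)) * X2 - 2 * J := by linarith only [hibp]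
  refine le_of_mul_le_mul_left ?_ hn2
  have h9 : (n - 2 : ℝ) * ((2 * n + 3) * J + (2 * n + 3) * n * X1 - (3 * n + 6) * X0 +
      (n + 3) * (u * (1 - u)) * X2) = (n - 2) * ((2 * n + 3) * J + (2 * n + 3) * n * X1 +
      (n + 3) * (u * (1 - u)) * X2) - 3 * ((n ^ 2 - n) * X1 -
      n * (n - 2) * (u * (1 - u)) * X2 - 2 * J) := by
    rw [← hX0]; ring
  rw [h9]
  have h10 : (n - 2 : ℝ) * (2 * (n + 1) * n * (2 * gint n - J)) -
      ((n - 2) * ((2 * n + 3) * J + (2 * n + 3) * n * X1 +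
      (n + 3) * (u * (1 - u)) * X2) - 3 * ((n ^ 2 - n) * X1 -
      n * (n - 2) * (u * (1 - u)) * X2 - 2 * J)) = 4 * n * (n + 1) * (n - 2) * gint n -
      (((2 * (n : ℝ) ^ 2 + 4 * n + 3) * (n - 2) + 6) * J +
      n * (2 * n ^ 2 - 4 * n - 3) * X1 +
      (4 * n + 3) * (n - 2) * (u * (1 - u)) * X2) := by ring
  linarith only [hmain]

/-! ### Large `n` -/

theorem int_mono {f g : ℝ → ℝ} (hf : Continuous f) (hg : Continuous g) (h : ∀ t, f t ≤ g t) :
    ∫ t in (0 : ℝ)..(2 * π), f t ≤ ∫ t in (0 : ℝ)..(2 * π), g t :=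
  integral_mono_on (by positivity) (hf.intervalIntegrable _ _) (hg.intervalIntegrable _ _)
    (fun t _ => h t)

theorem int_add {f g : ℝ → ℝ} (hf : Continuous f) (hg : Continuous g) :
    ∫ t in (0 : ℝ)..(2 * π), (f t + g t) =
      (∫ t in (0 : ℝ)..(2 * π), f t) + ∫ t in (0 : ℝ)..(2 * π), g t :=
  integral_add (hf.intervalIntegrable _ _) (hg.intervalIntegrable _ _)

theorem cos_rpow (t : ℝ) (m : ℕ) : (cos t ^ 2) ^ ((m : ℝ) / 2) = |cos t| ^ m := by
  rw [← sq_abs, ← rpow_natCast (|cos t|) 2, ← rpow_mul (abs_nonneg _), ← rpow_natCast]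
  congr 1
  push_cast; ring

theorem sin_rpow (t : ℝ) (m : ℕ) : (sin t ^ 2) ^ ((m : ℝ) / 2) = |sin t| ^ m := by
  rw [← sq_abs, ← rpow_natCast (|sin t|) 2, ← rpow_mul (abs_nonneg _), ← rpow_natCast]
  congr 1
  push_cast; ring

theorem Cf_rpow_le {u : ℝ} (hu0 : 0 < u) (hu : u ≤ 1 / 2) (m : ℕ) (hm : 2 ≤ m) (t : ℝ) :
    Cf u t ^ ((m : ℝ) / 2) ≤ (1 - 2 * u) * |cos t| ^ m + 2 * u * (1 / 2) ^ ((m : ℝ) / 2) := by
  have hm' : (1 : ℝ) ≤ (m : ℝ) / 2 := by
    have : (2 : ℝ) ≤ m := by exact_mod_cast hm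
    linarith only [this]
  have h := (convexOn_rpow hm').2 (show cos t ^ 2 ∈ Set.Ici (0 : ℝ) from Set.mem_Ici.mpr (sq_nonneg _))
    (show (1 / 2 : ℝ) ∈ Set.Ici (0 : ℝ) from Set.mem_Ici.mpr (by norm_num))
    (show (0 : ℝ) ≤ 1 - 2 * u by linarith) (show (0 : ℝ) ≤ 2 * u by linarith) (by ring)
  simp only [smul_eq_mul] at h
  rw [cos_rpow] at h
  have e : (1 - 2 * u) * cos t ^ 2 + 2 * u * (1 / 2) = Cf u t := by rw [Cf_eq]; ring
  rwa [e] at h

theorem Cf_rpow_le' {u : ℝ} (hu0 : 0 < u) (hu : u ≤ 1 / 2) (m : ℕ) (hm : 2 ≤ m) (t : ℝ) :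
    Cf u t ^ ((m : ℝ) / 2) ≤ (1 - u) * |cos t| ^ m + u * |sin t| ^ m := by
  have hm' : (1 : ℝ) ≤ (m : ℝ) / 2 := by
    have : (2 : ℝ) ≤ m := by exact_mod_cast hm
    linarith only [this]
  have h := (convexOn_rpow hm').2 (show cos t ^ 2 ∈ Set.Ici (0 : ℝ) from Set.mem_Ici.mpr (sq_nonneg _))
    (show sin t ^ 2 ∈ Set.Ici (0 : ℝ) from Set.mem_Ici.mpr (sq_nonneg _))
    (show (0 : ℝ) ≤ 1 - u by linarith) (show (0 : ℝ) ≤ u by linarith) (by ring)
  simp only [smul_eq_mul] at h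
  rw [cos_rpow, sin_rpow] at h
  exact h

theorem Jint_le {u : ℝ} (hu0 : 0 < u) (hu : u ≤ 1 / 2) (m : ℕ) (hm : 2 ≤ m) :
    Jint u ((m : ℝ) / 2) ≤ (1 - 2 * u) * gint m + 2 * u * (2 * π * (1 / 2) ^ ((m : ℝ) / 2)) := by
  refine (int_mono (continuous_Cf_rpow hu0 hu ((m : ℝ) / 2)) (by fun_prop)
    (Cf_rpow_le hu0 hu m hm)).trans (le_of_eq ?_)
  rw [int_add (by fun_prop) continuous_const, integral_const_mul, integral_const]
  unfold gint
  simp only [smul_eq_mul, sub_zero]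
  ring

theorem Jint_le' {u : ℝ} (hu0 : 0 < u) (hu : u ≤ 1 / 2) (m : ℕ) (hm : 2 ≤ m) :
    Jint u ((m : ℝ) / 2) ≤ gint m := by
  refine (int_mono (continuous_Cf_rpow hu0 hu ((m : ℝ) / 2)) (by fun_prop)
    (Cf_rpow_le' hu0 hu m hm)).trans (le_of_eq ?_)
  rw [int_add (by fun_prop) (by fun_prop), integral_const_mul, integral_const_mul,
    abs_sin_eq_gint]
  unfold gint
  ring

theorem kf_nonneg {a b : ℝ} (ha : 0 ≤ a) (hb : 0 ≤ b) (t : ℝ) : 0 ≤ kf a b t := by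
  unfold kf; positivity

theorem kf10 (t : ℝ) : kf 1 0 t = cos t ^ 2 := by unfold kf; ring

theorem kf01 (t : ℝ) : kf 0 1 t = 1 - cos t ^ 2 := by
  unfold kf; linarith [sin_sq_add_cos_sq t]

theorem int_cos_sq : ∫ t in (0 : ℝ)..(2 * π), cos t ^ 2 = π := by
  have : (fun t : ℝ => cos t ^ 2) = fun t => |cos t| ^ 2 := by
    funext t; rw [sq_abs]
  rw [this]
  have h := gint_two
  rw [gint] at h
  exact h

theorem int_one_sub_cos_sq : ∫ t in (0 : ℝ)..(2 * π), (1 - cos t ^ 2) = π := by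
  rw [integral_sub (continuous_const.intervalIntegrable _ _)
      ((by fun_prop : Continuous fun t : ℝ => cos t ^ 2).intervalIntegrable _ _), int_cos_sq,
      integral_const]
  simp only [smul_eq_mul, sub_zero]
  ring

theorem Xint10_le {u : ℝ} (hu0 : 0 < u) (hu : u ≤ 1 / 2) (m : ℕ) (hm : 2 ≤ m) :
    Xint u 1 0 ((m : ℝ) / 2) ≤ (1 - 2 * u) * gint (m + 2) +
      2 * u * (π * (1 / 2) ^ ((m : ℝ) / 2)) := by
  have h1 := continuous_Cf_rpow hu0 hu ((m : ℝ) / 2)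
  have h0 := continuous_kf 1 0
  refine (int_mono (g := fun t => (1 - 2 * u) * |cos t| ^ (m + 2) +
    (2 * u * (1 / 2) ^ ((m : ℝ) / 2)) * cos t ^ 2) (h0.mul h1) (by fun_prop)
    fun t => ?_).trans (le_of_eq ?_)
  · have h4 := mul_le_mul_of_nonneg_left (Cf_rpow_le hu0 hu m hm t)
      (kf_nonneg (a := 1) (b := 0) (by norm_num) (by norm_num) t)
    refine h4.trans (le_of_eq ?_)
    have : |cos t| ^ (m + 2) = |cos t| ^ m * cos t ^ 2 := by
      rw [pow_add, sq_abs]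
    rw [kf10, this]
    ring
  · rw [int_add (by fun_prop) (by fun_prop), integral_const_mul, integral_const_mul, int_cos_sq]
    unfold gint
    ring

theorem Xint01_le {u : ℝ} (hu0 : 0 < u) (hu : u ≤ 1 / 2) (m : ℕ) (hm : 2 ≤ m) :
    Xint u 0 1 ((m : ℝ) / 2) ≤ (1 - 2 * u) * (gint m - gint (m + 2)) +
      2 * u * (π * (1 / 2) ^ ((m : ℝ) / 2)) := by
  have h1 := continuous_Cf_rpow hu0 hu ((m : ℝ) / 2)
  have h0 := continuous_kf 0 1
  refine (int_mono (g := fun t => ((1 - 2 * u) * |cos t| ^ m +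
    (-(1 - 2 * u)) * |cos t| ^ (m + 2)) +
    (2 * u * (1 / 2) ^ ((m : ℝ) / 2)) * (1 - cos t ^ 2)) (h0.mul h1) (by fun_prop)
    fun t => ?_).trans (le_of_eq ?_)
  · have h4 := mul_le_mul_of_nonneg_left (Cf_rpow_le hu0 hu m hm t)
      (kf_nonneg (a := 0) (b := 1) (by norm_num) (by norm_num) t)
    refine h4.trans (le_of_eq ?_)
    have : |cos t| ^ (m + 2) = |cos t| ^ m * cos t ^ 2 := by
      rw [pow_add, sq_abs]
    rw [kf01, this]
    ring
  · rw [int_add (by fun_prop) (by fun_prop), int_add (by fun_prop) (by fun_prop),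
      integral_const_mul, integral_const_mul, integral_const_mul, int_one_sub_cos_sq]
    unfold gint
    ring

/-- `q x C^(s-1) ≤ u C^s` -/
theorem Xint10_q {u : ℝ} (hu0 : 0 < u) (hu : u ≤ 1 / 2) (s : ℝ) :
    u * (1 - u) * Xint u 1 0 (s - 1) ≤ u * Jint u s := by
  have h1 := continuous_Cf_rpow hu0 hu s
  have h2 := continuous_Cf_rpow hu0 hu (s - 1)
  have h0 := continuous_kf 1 0
  unfold Xint Jint
  rw [← integral_const_mul, ← integral_const_mul]
  refine int_mono (by fun_prop) (by fun_prop) fun t => ?_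
  have hpos := Cf_pos hu0 hu t
  have e : Cf u t ^ s = Cf u t ^ (s - 1) * Cf u t := by
    rw [← rpow_add_one hpos.ne']; congr 1; ring
  have h3 : 0 ≤ Cf u t ^ (s - 1) := by positivity
  have h4 : u * (1 - u) * kf 1 0 t ≤ u * Cf u t := by
    rw [kf10, Cf_eq]
    have := cos_sq_le_one t
    have h5 : 0 ≤ u * u * (1 - cos t ^ 2) := by
      have : 0 ≤ 1 - cos t ^ 2 := by linarith
      positivity
    linarith only [h5]
  rw [e]
  calc u * (1 - u) * (kf 1 0 t * Cf u t ^ (s - 1)) =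
        (u * (1 - u) * kf 1 0 t) * Cf u t ^ (s - 1) := by ring
    _ ≤ (u * Cf u t) * Cf u t ^ (s - 1) := mul_le_mul_of_nonneg_right h4 h3
    _ = _ := by ring

/-- `q (1-x) C^(s-1) ≤ (1-u) C^s` -/
theorem Xint01_q {u : ℝ} (hu0 : 0 < u) (hu : u ≤ 1 / 2) (s : ℝ) :
    u * (1 - u) * Xint u 0 1 (s - 1) ≤ (1 - u) * Jint u s := by
  have h1 := continuous_Cf_rpow hu0 hu s
  have h2 := continuous_Cf_rpow hu0 hu (s - 1)
  have h0 := continuous_kf 0 1
  unfold Xint Jint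
  rw [← integral_const_mul, ← integral_const_mul]
  refine int_mono (by fun_prop) (by fun_prop) fun t => ?_
  have hpos := Cf_pos hu0 hu t
  have e : Cf u t ^ s = Cf u t ^ (s - 1) * Cf u t := by
    rw [← rpow_add_one hpos.ne']; congr 1; ring
  have h3 : 0 ≤ Cf u t ^ (s - 1) := by positivity
  have h4 : u * (1 - u) * kf 0 1 t ≤ (1 - u) * Cf u t := by
    rw [kf01, Cf_eq]
    have h5 : 0 ≤ (1 - u) * (1 - u) * cos t ^ 2 := by
      have : 0 ≤ 1 - u := by linarith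
      positivity
    linarith only [h5]
  rw [e]
  calc u * (1 - u) * (kf 0 1 t * Cf u t ^ (s - 1)) =
        (u * (1 - u) * kf 0 1 t) * Cf u t ^ (s - 1) := by ring
    _ ≤ ((1 - u) * Cf u t) * Cf u t ^ (s - 1) := mul_le_mul_of_nonneg_right h4 h3
    _ = _ := by ring

theorem large_aux {n : ℕ} (hn : 5 ≤ n) : ∃ h : ℝ, 0 < h ∧ gint n = (n - 1) * h ∧
    gint (n - 2) = n * h := by
  obtain ⟨m, rfl⟩ : ∃ m, n = m + 2 := ⟨n - 2, by omega⟩
  refine ⟨gint m / (m + 2), ?_, ?_, ?_⟩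
  · have := gint_pos m
    positivity
  · rw [gint_succ]; push_cast; ring
  · have : m + 2 - 2 = m := by omega
    rw [this]
    have : ((m : ℝ) + 2) ≠ 0 := by positivity
    push_cast
    field_simp

theorem goal10_large {n : ℕ} (hn : 5 ≤ n) {u : ℝ} (hu0 : 0 < u) (hu : u ≤ 1 / 2) :
    ((2 * (n : ℝ) ^ 2 + 4 * n + 3) * (n - 2) + 6) * Jint u (n / 2) +
      n * (2 * n ^ 2 - 4 * n - 3) * Xint u 1 0 (n / 2 - 1) +
      (4 * n + 3) * (n - 2) * (u * (1 - u)) * Xint u 1 0 (n / 2 - 2) ≤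
        4 * n * (n + 1) * (n - 2) * gint n := by
  obtain ⟨h, hh, hG, hG2⟩ := large_aux hn
  have hn5 : (5 : ℝ) ≤ n := by exact_mod_cast hn
  have e1 : ((n : ℝ) / 2 - 1) = ((n - 2 : ℕ) : ℝ) / 2 := by
    rw [Nat.cast_sub (by omega)]; push_cast; ring
  have e2 : ((n : ℝ) / 2 - 2) = ((n - 2 : ℕ) : ℝ) / 2 - 1 := by
    rw [Nat.cast_sub (by omega)]; push_cast; ring
  have e3 : n - 2 + 2 = n := by omega
  have h1 := Jint_le hu0 hu n (by omega)
  have h2 := Xint10_le hu0 hu (n - 2) (by omega)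
  have h3 := Xint10_q hu0 hu (((n - 2 : ℕ) : ℝ) / 2)
  have h4 := Jint_le' hu0 hu (n - 2) (by omega)
  have h5 := gint_lower n hn
  rw [e3] at h2
  have hM : π * (1 / 2 : ℝ) ^ (((n - 2 : ℕ) : ℝ) / 2) = 2 * π * (1 / 2 : ℝ) ^ ((n : ℝ) / 2) := by
    have : (1 / 2 : ℝ) ^ ((n : ℝ) / 2) = (1 / 2 : ℝ) ^ (((n - 2 : ℕ) : ℝ) / 2) * (1 / 2) := by
      rw [← rpow_add_one (by norm_num), ← e1]; congr 1; ring
    rw [this]; ring
  rw [hM] at h2
  rw [e2, e1]
  rw [hG] at h1 h2 h5 ⊢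
  rw [hG2] at h4
  set J := Jint u ((n : ℝ) / 2)
  set X1 := Xint u 1 0 (((n - 2 : ℕ) : ℝ) / 2)
  set X2 := Xint u 1 0 (((n - 2 : ℕ) : ℝ) / 2 - 1)
  set J2 := Jint u (((n - 2 : ℕ) : ℝ) / 2)
  set M := 2 * π * (1 / 2 : ℝ) ^ ((n : ℝ) / 2)
  set N : ℝ := (n : ℝ)
  have hb0 : 0 ≤ (2 * N ^ 2 + 4 * N + 3) * (N - 2) + 6 := by
    have : 0 ≤ N - 2 := by linarith only [hu0, hu, hn5]
    positivity
  have hb1 : 0 ≤ N * (2 * N ^ 2 - 4 * N - 3) := by
    have : 0 ≤ 2 * N ^ 2 - 4 * N - 3 := by nlinarith only [hu, hn5, hu0]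
    have : 0 ≤ N := by linarith only [hu0, hu, hn5]
    positivity
  have hb2 : 0 ≤ (4 * N + 3) * (N - 2) := by
    have : 0 ≤ N - 2 := by linarith only [hu0, hu, hn5]
    positivity
  have hBB : (1 - 2 * u) * ((N - 1) * h) + 2 * u * M ≤ (N - 1) * h - u * ((N - 1) * h) / 3 := by
    nlinarith only [hu0, h5]
  have hJ : J ≤ (N - 1) * h - u * ((N - 1) * h) / 3 := h1.trans hBB
  have hX1 : X1 ≤ (N - 1) * h - u * ((N - 1) * h) / 3 := h2.trans hBB
  have hX2 : (u * (1 - u)) * X2 ≤ u * (N * h) := h3.trans (mul_le_mul_of_nonneg_left h4 hu0.le)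
  have k0 := mul_le_mul_of_nonneg_left hJ hb0
  have k1 := mul_le_mul_of_nonneg_left hX1 hb1
  have k2 := mul_le_mul_of_nonneg_left hX2 hb2
  have hfin : (4 * N + 3) * (N - 2) * (u * (N * h)) ≤
      4 * N * (N + 1) * (N - 2) * (u * ((N - 1) * h) / 3) := by
    have h6 : 3 * (4 * N + 3) ≤ 4 * (N + 1) * (N - 1) := by nlinarith only [hu, hn5, hu0]
    have h7 : 0 ≤ (N - 2) * (u * (N * h)) / 3 := by
      have : 0 ≤ N - 2 := by linarith only [hu0, hu, hn5]
      have : 0 ≤ N := by linarith only [hu0, hu, hn5]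
      positivity
    have h8 := mul_le_mul_of_nonneg_right h6 h7
    calc (4 * N + 3) * (N - 2) * (u * (N * h)) =
          3 * (4 * N + 3) * ((N - 2) * (u * (N * h)) / 3) := by ring
      _ ≤ 4 * (N + 1) * (N - 1) * ((N - 2) * (u * (N * h)) / 3) := h8
      _ = _ := by ring
  have hsum : ((2 * N ^ 2 + 4 * N + 3) * (N - 2) + 6) + N * (2 * N ^ 2 - 4 * N - 3) =
      4 * N * (N + 1) * (N - 2) := by ring
  have hid : ((2 * N ^ 2 + 4 * N + 3) * (N - 2) + 6) *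
      ((N - 1) * h - u * ((N - 1) * h) / 3) + N * (2 * N ^ 2 - 4 * N - 3) *
      ((N - 1) * h - u * ((N - 1) * h) / 3) = 4 * N * (N + 1) * (N - 2) * ((N - 1) * h) -
      4 * N * (N + 1) * (N - 2) * (u * ((N - 1) * h) / 3) := by
    rw [← hsum]; ring
  have e4 : (4 * N + 3) * (N - 2) * (u * (1 - u)) * X2 =
      (4 * N + 3) * (N - 2) * ((u * (1 - u)) * X2) := by ring
  rw [e4]
  linarith only [k0, k1, k2, hfin]

theorem goal01_large {n : ℕ} (hn : 5 ≤ n) {u : ℝ} (hu0 : 0 < u) (hu : u ≤ 1 / 2) :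
    ((2 * (n : ℝ) ^ 2 + 4 * n + 3) * (n - 2) + 6) * Jint u (n / 2) +
      n * (2 * n ^ 2 - 4 * n - 3) * Xint u 0 1 (n / 2 - 1) +
      (4 * n + 3) * (n - 2) * (u * (1 - u)) * Xint u 0 1 (n / 2 - 2) ≤
        4 * n * (n + 1) * (n - 2) * gint n := by
  obtain ⟨h, hh, hG, hG2⟩ := large_aux hn
  have hn5 : (5 : ℝ) ≤ n := by exact_mod_cast hn
  have e1 : ((n : ℝ) / 2 - 1) = ((n - 2 : ℕ) : ℝ) / 2 := by
    rw [Nat.cast_sub (by omega)]; push_cast; ring
  have e2 : ((n : ℝ) / 2 - 2) = ((n - 2 : ℕ) : ℝ) / 2 - 1 := by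
    rw [Nat.cast_sub (by omega)]; push_cast; ring
  have e3 : n - 2 + 2 = n := by omega
  have h1 := Jint_le hu0 hu n (by omega)
  have h2 := Xint01_le hu0 hu (n - 2) (by omega)
  have h3 := Xint01_q hu0 hu (((n - 2 : ℕ) : ℝ) / 2)
  have h4 := Jint_le' hu0 hu (n - 2) (by omega)
  have h5 := gint_lower n hn
  rw [e3] at h2
  have hM : π * (1 / 2 : ℝ) ^ (((n - 2 : ℕ) : ℝ) / 2) = 2 * π * (1 / 2 : ℝ) ^ ((n : ℝ) / 2) := by
    have : (1 / 2 : ℝ) ^ ((n : ℝ) / 2) = (1 / 2 : ℝ) ^ (((n - 2 : ℕ) : ℝ) / 2) * (1 / 2) := by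
      rw [← rpow_add_one (by norm_num), ← e1]; congr 1; ring
    rw [this]; ring
  rw [hM] at h2
  rw [e2, e1]
  rw [hG] at h1 h2 h5 ⊢
  rw [hG2] at h2 h4
  set J := Jint u ((n : ℝ) / 2)
  set X1 := Xint u 0 1 (((n - 2 : ℕ) : ℝ) / 2)
  set X2 := Xint u 0 1 (((n - 2 : ℕ) : ℝ) / 2 - 1)
  set J2 := Jint u (((n - 2 : ℕ) : ℝ) / 2)
  set M := 2 * π * (1 / 2 : ℝ) ^ ((n : ℝ) / 2)
  set N : ℝ := (n : ℝ)
  have hN2 : 0 ≤ N - 2 := by linarith only [hu0, hu, hn5]
  have hN0 : 0 ≤ N := by linarith only [hu0, hu, hn5]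
  have hb0 : 0 ≤ (2 * N ^ 2 + 4 * N + 3) * (N - 2) + 6 := by positivity
  have hb1' : 0 ≤ 2 * N ^ 2 - 4 * N - 3 := by nlinarith only [hu, hn5, hu0]
  have hb1 : 0 ≤ N * (2 * N ^ 2 - 4 * N - 3) := by positivity
  have hb2 : 0 ≤ (4 * N + 3) * (N - 2) := by positivity
  have hu1 : 0 ≤ 1 - u := by linarith only [hu0, hu]
  have hu2 : 0 ≤ 1 - 2 * u := by linarith only [hu]
  have hX2 : (u * (1 - u)) * X2 ≤ (1 - u) * (N * h) :=
    h3.trans (mul_le_mul_of_nonneg_left h4 hu1)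
  have k0 := mul_le_mul_of_nonneg_left h1 hb0
  have k1 := mul_le_mul_of_nonneg_left h2 hb1
  have k2 := mul_le_mul_of_nonneg_left hX2 hb2
  -- first bracket
  have f1 : ((2 * N ^ 2 + 4 * N + 3) * (N - 2) + 6) * ((N - 1) * h) +
      N * (2 * N ^ 2 - 4 * N - 3) * (N * h - (N - 1) * h) +
      (4 * N + 3) * (N - 2) * (N * h) ≤ 4 * N * (N + 1) * (N - 2) * ((N - 1) * h) := by
    have h6 : 4 * N + 3 ≤ 2 * N ^ 2 - 4 * N - 3 := by nlinarith only [hu, hn5, hu0]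
    have h7 : 0 ≤ N * h * (N - 2) := by positivity
    have h8 := mul_le_mul_of_nonneg_right h6 h7
    have h9 : 4 * N * (N + 1) * (N - 2) * ((N - 1) * h) -
        (((2 * N ^ 2 + 4 * N + 3) * (N - 2) + 6) * ((N - 1) * h) +
        N * (2 * N ^ 2 - 4 * N - 3) * (N * h - (N - 1) * h) +
        (4 * N + 3) * (N - 2) * (N * h)) = (2 * N ^ 2 - 4 * N - 3) * (N * h * (N - 2)) -
        (4 * N + 3) * (N * h * (N - 2)) := by ring
    linarith only [h8]
  -- second bracket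
  have f2 : 4 * N * (N + 1) * (N - 2) * M + (4 * N + 3) * (N - 2) * (N * h) / 2 ≤
      4 * N * (N + 1) * (N - 2) * ((N - 1) * h) := by
    have h6 : 3 * (4 * N + 3) ≤ 4 * (N + 1) * (N - 1) := by nlinarith only [hu, hn5, hu0]
    have h7 : 0 ≤ (N - 2) * (N * h) / 6 := by positivity
    have h8 := mul_le_mul_of_nonneg_right h6 h7
    have h9 : 0 ≤ 4 * N * (N + 1) * (N - 2) := by positivity
    have h10 := mul_le_mul_of_nonneg_left h5 h9
    linarith only [h8, h10]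
  have g1 := mul_le_mul_of_nonneg_left f1 hu2
  have g2 := mul_le_mul_of_nonneg_left f2 (by linarith only [hu0] : 0 ≤ 2 * u)
  have e4 : (4 * N + 3) * (N - 2) * (u * (1 - u)) * X2 =
      (4 * N + 3) * (N - 2) * ((u * (1 - u)) * X2) := by ring
  rw [e4]
  have hid : ((2 * N ^ 2 + 4 * N + 3) * (N - 2) + 6) *
      ((1 - 2 * u) * ((N - 1) * h) + 2 * u * M) +
      N * (2 * N ^ 2 - 4 * N - 3) * ((1 - 2 * u) * (N * h - (N - 1) * h) + 2 * u * M) +
      (4 * N + 3) * (N - 2) * ((1 - u) * (N * h)) =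
      (1 - 2 * u) * (((2 * N ^ 2 + 4 * N + 3) * (N - 2) + 6) * ((N - 1) * h) +
      N * (2 * N ^ 2 - 4 * N - 3) * (N * h - (N - 1) * h) +
      (4 * N + 3) * (N - 2) * (N * h)) +
      2 * u * (4 * N * (N + 1) * (N - 2) * M + (4 * N + 3) * (N - 2) * (N * h) / 2) := by ring
  have hid2 : 4 * N * (N + 1) * (N - 2) * ((N - 1) * h) =
      (1 - 2 * u) * (4 * N * (N + 1) * (N - 2) * ((N - 1) * h)) +
      2 * u * (4 * N * (N + 1) * (N - 2) * ((N - 1) * h)) := by ring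
  linarith only [k0, k1, k2, g1, g2]

end Pool.Agent.Helper77.OneVar
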