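import Pool.Agent.Helper75.KT.Rank

/-!
# Products of `CP^1` in K-theory (L6 for `MP_0ce5f1_an`)

`(1 - [L])^2 = 0` in `K_0(C(CP^1))`, and no non-zero multiple of the product of the classes
`1 - [L_c]`, `c ∈ F`, vanishes in `K_0` of a product of copies of `CP^1`.
-/

set_option linter.unusedSectionVars false

namespace Pool.Agent.Helper75.KT

open Matrix Filter Topology CPd
open scoped Kronecker ComplexOrder Matrix.Norms.L2Operator

/-- the quantisation theorem for `d = 2` (offer L3) -/
def QuantStmt2 : Prop := ∃ A : AQ (CPd 2), (∀ n, A.T n 1 = 1) ∧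
    (∀ n, Fintype.card (A.α n) = n + 1) ∧ A.NearRank (taut 2) (fun n => n + 2)

/-- `1 - [L_c]`, `L_c` the tautological line bundle of the coordinate `c` -/
noncomputable def Yc (J : Type*) (c : J) : K0 C(J → CPd 2, ℂ) :=
  1 - pb (⟨fun x => x c, continuous_apply c⟩ : C(J → CPd 2, CPd 2)) (kcl (taut 2))

/-- the entries of a line -/
theorem CPd.exists_entries {d : ℕ} (p : CPd d) :
    ∃ z : Fin d → ℂ, ∀ i j, p.1 i j = z i * star (z j) := by
  obtain ⟨z, rfl⟩ := CPd.mk_surj p
  exact ⟨z.1, fun i j => rfl⟩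

/-- the point `[0 : 1]` -/
noncomputable def CPd.pt01 : CPd 2 :=
  ⟨Matrix.of ![![0, 0], ![0, 1]], by
    refine ⟨⟨?_, ?_⟩, ?_⟩
    · ext i j
      fin_cases i <;> fin_cases j <;> simp [Matrix.mul_apply, Fin.sum_univ_two]
    · ext i j
      fin_cases i <;> fin_cases j <;> simp [Matrix.conjTranspose_apply]
    · simp [Matrix.trace, Fin.sum_univ_two]⟩

instance : Nonempty (CPd 2) := ⟨CPd.pt01⟩

theorem CPd.eq_pt01 (p : CPd 2) (h : p.1 0 0 = 0) : p = CPd.pt01 := by
  obtain ⟨z, hz⟩ := p.exists_entries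
  have h0 : z 0 = 0 := by
    have := hz 0 0
    rw [h] at this
    rcases mul_eq_zero.1 this.symm with h1 | h1
    · exact h1
    · exact star_eq_zero.1 h1
  have h1 : z 1 * star (z 1) = 1 := by
    have := p.tr
    simp only [Matrix.trace, Matrix.diag, Fin.sum_univ_two, hz, h0, zero_mul, zero_add] at this
    exact this
  apply Subtype.ext
  ext i j
  rw [hz]
  fin_cases i <;> fin_cases j <;> simp [CPd.pt01, h0]
  exact h1

/-- the first column of the tautological projection -/
noncomputable def tcol : Matrix (Fin 2) (Fin 1) C(CPd 2, ℂ) := fun i _ => taut 2 i 0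

theorem Yt_sq : (1 - kcl (taut 2)) ^ 2 = 0 := by
  rw [pow_two]
  apply rs_univ
  have hZc : IsClosed {p : CPd 2 | p.1 0 0 = 0} :=
    isClosed_eq (taut 2 0 0).continuous continuous_const
  refine loc Set.univ {p : CPd 2 | p.1 0 0 = 0} isClosed_univ hZc (taut 2) taut_pr tcol
    (taut 2 0 0) ?_ ?_ ?_ ?_ (fun x hx => hx) _ ?_
  · ext i j p
    have := congrArg (fun M : Matrix (Fin 2) (Fin 2) C(CPd 2, ℂ) => M i 0 p)
      (taut_pr (d := 2)).1
    simp only [Matrix.mul_apply] at this ⊢
    exact this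
  · ext i j p
    obtain rfl := Subsingleton.elim i j
    have h1 := congrArg (fun M : Matrix (Fin 2) (Fin 2) C(CPd 2, ℂ) => M 0 0 p)
      (taut_pr (d := 2)).1
    have h2 : ∀ k, star (taut 2 k 0) = taut 2 0 k := by
      intro k
      have := congrFun (congrFun (taut_pr (d := 2)).2 0) k
      rwa [conjTranspose_apply] at this
    simp only [Matrix.mul_apply, conjTranspose_apply, tcol, h2] at h1 ⊢
    simpa using h1
  · ext i j p
    obtain ⟨z, hz⟩ := p.exists_entries
    simp only [Matrix.mul_apply, conjTranspose_apply, tcol, Finset.univ_unique,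
      Finset.sum_singleton, Matrix.smul_apply, smul_eq_mul, ContinuousMap.mul_apply,
      ContinuousMap.star_apply]
    change p.1 i 0 * star (p.1 j 0) = p.1 0 0 * p.1 i j
    rw [hz, hz, hz, hz]
    simp only [star_mul, star_star]
    ring
  · intro p
    change 0 ≤ p.1 0 0
    obtain ⟨z, hz⟩ := p.exists_entries
    rw [hz]
    exact mul_star_self_nonneg _
  · have hsub : Subsingleton (Set.univ ∩ {p : CPd 2 | p.1 0 0 = 0} : Set (CPd 2)) := by
      refine ⟨fun a b => ?_⟩
      apply Subtype.ext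
      rw [CPd.eq_pt01 a.1 a.2.2, CPd.eq_pt01 b.1 b.2.2]
    have hcl : IsClosed (Set.univ ∩ {p : CPd 2 | p.1 0 0 = 0} : Set (CPd 2)) :=
      isClosed_univ.inter hZc
    have hcomp : CompactSpace (Set.univ ∩ {p : CPd 2 | p.1 0 0 = 0} : Set (CPd 2)) :=
      isCompact_iff_compactSpace.1 hcl.isCompact
    have hx : CPd.pt01 ∈ (Set.univ ∩ {p : CPd 2 | p.1 0 0 = 0} : Set (CPd 2)) := by
      refine ⟨trivial, ?_⟩
      change (Matrix.of ![![0, 0], ![0, 1]] : Matrix (Fin 2) (Fin 2) ℂ) 0 0 = 0
      simp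
    apply eq_of_rk_subsingleton ⟨CPd.pt01, hx⟩
    rw [rs, rk_pb, map_sub, map_one, rk_kcl _ _ taut_pr, evM_taut, CPd.tr, sub_self]

theorem Yc_eq (J : Type*) (c : J) :
    Yc J c = pb (⟨fun x => x c, continuous_apply c⟩ : C(J → CPd 2, CPd 2))
      (1 - kcl (taut 2)) := by
  rw [map_sub, map_one]; rfl

theorem Yc_sq (J : Type*) (c : J) : Yc J c ^ 2 = 0 := by
  rw [Yc_eq, ← map_pow, Yt_sq, map_zero]

/-- cancellation of the class `1 - [L]` of the second factor -/
theorem cancel_taut (hquant : QuantStmt2) {X : Type*} [TopologicalSpace X] [CompactSpace X]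
    (a : K0 C(X, ℂ))
    (h : pb (AQ.fstC X (CPd 2)) a * pb (AQ.sndC X (CPd 2)) (1 - kcl (taut 2)) = 0) : a = 0 := by
  obtain ⟨A, h1, h2, h3⟩ := hquant
  have key := A.transfer (X := X) h1 (Finset.univ : Finset Bool)
    (fun b => cond b a (-a)) (fun b => cond b 1 2)
    (fun b => match b with
      | true => (1 : Matrix (Fin 1) (Fin 1) C(CPd 2, ℂ))
      | false => taut 2)
    (fun b => match b with
      | true => IsPr.one
      | false => taut_pr)
    (fun b => match b with
      | true => fun n => Fintype.card (A.α n)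
      | false => fun n => n + 2)
    (fun b => match b with
      | true => A.tc_one_rank h1
      | false => h3)
    (by
      rw [Fintype.sum_bool]
      change pb (AQ.fstC X (CPd 2)) a * pb (AQ.sndC X (CPd 2))
          (kcl (1 : Matrix (Fin 1) (Fin 1) C(CPd 2, ℂ)))
        + pb (AQ.fstC X (CPd 2)) (-a) * pb (AQ.sndC X (CPd 2)) (kcl (taut 2)) = 0
      rw [← one_eq_kcl, map_neg]
      rw [map_sub] at h
      linear_combination h)
  obtain ⟨n, hn⟩ := key.exists
  rw [Fintype.sum_bool] at hn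
  change ((Fintype.card (A.α n) : ℕ) : K0 C(X, ℂ)) * a + ((n + 2 : ℕ) : K0 C(X, ℂ)) * (-a) = 0
    at hn
  rw [h2] at hn
  push_cast at hn
  linear_combination -hn

theorem Yc_prod_ne (hquant : QuantStmt2) (J : Type*) (F : Finset J) (m : ℕ) (hm : m ≠ 0) :
    (m : K0 C(J → CPd 2, ℂ)) * ∏ c ∈ F, Yc J c ≠ 0 := by
  classical
  induction F using Finset.induction_on with
  | empty =>
    rw [Finset.prod_empty, mul_one]
    intro h
    have h' : ((m : ℤ) : K0 C(J → CPd 2, ℂ)) = 0 := by exact_mod_cast h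
    rw [intCast_eq_zero_iff] at h'
    exact hm (by exact_mod_cast h')
  | insert c F hc ih =>
    intro h
    apply ih
    apply cancel_taut hquant
    let g : C((J → CPd 2) × CPd 2, J → CPd 2) :=
      ⟨fun y => Function.update y.1 c y.2, continuous_fst.update c continuous_snd⟩
    have h1 : pb g (Yc J c) = pb (AQ.sndC (J → CPd 2) (CPd 2)) (1 - kcl (taut 2)) := by
      rw [Yc_eq, pb_comp]
      congr 1
      congr 1
      ext y
      simp [g, AQ.sndC]
    have h2 : ∀ c' ∈ F, pb g (Yc J c') = pb (AQ.fstC (J → CPd 2) (CPd 2)) (Yc J c') := by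
      intro c' hc'
      have hne : c' ≠ c := fun e => hc (e ▸ hc')
      rw [Yc_eq, pb_comp, pb_comp]
      congr 1
      congr 1
      ext y
      simp [g, AQ.fstC, Function.update_of_ne hne]
    have h3 := congrArg (pb g) h
    rw [map_mul, map_natCast, Finset.prod_insert hc, map_mul, h1, map_prod, map_zero,
      Finset.prod_congr rfl h2] at h3
    rw [map_mul, map_natCast, map_prod]
    linear_combination h3

end Pool.Agent.Helper75.KT
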