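import Pool.Agent.Helper77.R1.Gen2
import Pool.Agent.Helper77.R1.Fin
import Pool.Agent.Helper90.UN.Local

/-!
# Quotients by principal Hopf ideals: the proof (by helper77)

Let `k` be any field. We show that (fg1') and (fg2') pass from `C` to `B` if `B` and `C` are
finite-dimensional Hopf algebras and `π : B → C` is a surjective homomorphism whose kernel is a
principal left ideal `B X`, if one of the following conditions is satisfied (`PrincipalExact`): `B` is a
local ring; or `X` is nilpotent and `X b - b X ∈ B X²` for all `b` in `B`; or `X` is nilpotent and the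
counit is the only homomorphism of algebras `B → k`. The element `X` need not be central or
primitive, and the kernel need not come from a proper normal Hopf subalgebra of `B`.

In particular, for a local Hopf algebra `B` which has a sequence of quotient Hopf algebras
`B = B_0, B_1, …, B_r = C`, such that the kernels of `B_i → B_(i+1)` are principal left ideals, (fg1')
and (fg2') pass from `C` to `B` (`local_series`).

The definitions used are in `Pool/Agent/Helper59/FG/CohDefs.lean`, `CohAct.lean` and
`Pool/Agent/Helper90/FC/Defs.lean`, `FG2.lean`: `trivObj k A` is `k` with the action through the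
counit, as an object of `ModuleCat A`; `TT k X Y` is `X ⊗[k] Y` with the action through the
comultiplication; `tensFunctor k M` is the functor `- ⊗ M`; `EndExt X n` is Mathlib's group
`Ext X X n`, and `⨁ n, EndExt X n` carries the ring structure given by the Yoneda product
`x * y = x.comp y`; `unitMap k M` is the isomorphism `M → k ⊗ M`; `rst k M x` is the element
`x ⊗ M` of `Ext M M n`, for `x` in `Ext k k n`; `ActExt M N n` is the group `Ext M N n`, and
`⨁ n, ActExt M N n` is the module over `⨁ n, EndExt (trivObj k A) n` given by the Yoneda product
`x • y = (x ⊗ M).comp y`. `FGH k C` is the conjunction of (fg1') and (fg2') for `C`.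

Idea of the proof. Let `p` be the characteristic. By the theory of Hopf modules all quotients
`B X ^ j / B X ^ (j + 1)` with `X ^ j ≠ 0` are free of rank one over `C`. After the multiplication of
`X` by a unit one has `X b - b X ∈ B X²`, and `X ^ N = 0`, `dim B = N dim C` with `N = p ^ s`. The
cobar complex of `B*` contains a cochain `β` of degree two which is the Bockstein class of
`k[X]/(X ^ N)` on the associated graded algebra; its boundary can be made `y = λ κ + w`, where `κ`, `w`
come from `C*` and `λ` is one element of `B*`. (This is not zero in general; for central `X` one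
can have `κ = 0`.) The right action `R_y` on cochains satisfies `R_y ^ (N - 1) y = λ ^ N κ ^ N + …`,
which comes from `C*` up to boundaries, and `(R_y + L_β) ^ (N - 1) β` is a cochain with this boundary.
Since the cohomology of `C` is Noetherian, a further power of `p` makes the boundary zero, and gives
a class of `B` whose value on `k[X]/(X ^ N)` is not nilpotent.
-/

open CategoryTheory CategoryTheory.Limits DirectSum
open scoped ModuleCat
open Pool.Agent.Helper59.FG Pool.Agent.Helper90.FC

namespace Pool.Agent.Helper77.PE

universe u

/-- The homomorphism `π : B → C` is surjective and its kernel is the left ideal `B X` for an element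
`X` of `B`, such that `B` is a local ring, or `X` is nilpotent and either `X b - b X ∈ B X²` for all
`b`, or the counit is the only homomorphism of algebras from `B` to `k`. -/
structure PrincipalExact (k : Type u) [Field k] {B C : Type u} [Ring B] [Ring C] [HopfAlgebra k B]
    [HopfAlgebra k C] (π : B →ₐc[k] C) : Prop where
  surj : Function.Surjective π
  ker : ∃ X : B, (∀ b : B, π b = 0 ↔ ∃ b' : B, b = b' * X) ∧
    (IsLocalRing B ∨ (IsNilpotent X ∧ ((∀ b : B, ∃ b' : B, X * b - b * X = b' * X ^ 2) ∨
      ∀ (χ : B →ₐ[k] k) (b : B), χ b = Coalgebra.counit (R := k) b)))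

/-- `B` is obtained from `C` by finitely many principal extensions. -/
inductive IterPrincipal (k : Type u) [Field k] (C : Type u) [Ring C] [HopfAlgebra k C] :
    (B : Type u) → [Ring B] → [HopfAlgebra k B] → Prop
  /-- no extension -/
  | refl : IterPrincipal k C C
  /-- `B` is a principal extension of an iterated principal extension `B'` of `C` -/
  | step {B B' : Type u} [Ring B] [Ring B'] [HopfAlgebra k B] [HopfAlgebra k B']
      (π : B →ₐc[k] B') (hex : PrincipalExact k π) (h : IterPrincipal k C B') :
      IterPrincipal k C B

/-- There is a sequence of surjective homomorphisms of Hopf algebras from `B` to `C` whose kernels are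
principal left ideals. -/
inductive PrincipalSeries (k : Type u) [Field k] (C : Type u) [Ring C] [HopfAlgebra k C] :
    (B : Type u) → [Ring B] → [HopfAlgebra k B] → Prop
  /-- the empty sequence -/
  | refl : PrincipalSeries k C C
  /-- one more homomorphism -/
  | step {B B' : Type u} [Ring B] [Ring B'] [HopfAlgebra k B] [HopfAlgebra k B'] (π : B →ₐc[k] B')
      (hs : Function.Surjective π) (X : B) (hX : ∀ b : B, π b = 0 ↔ ∃ b' : B, b = b' * X)
      (h : PrincipalSeries k C B') : PrincipalSeries k C B

section

variable {k : Type u} [Field k]

/-- In a local Hopf algebra the elements of the augmentation ideal are nilpotent. -/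
theorem exists_pow_zero {B : Type u} [Ring B] [HopfAlgebra k B] [Module.Finite k B]
    (hB : IsLocalRing B) : ∃ N, ∀ b : B, Coalgebra.counit (R := k) b = 0 → b ^ N = 0 := by
  obtain ⟨N, hN⟩ := Helper90.UN.exists_aug (k := k) hB
  refine ⟨N, fun b hb => ?_⟩
  have h1 := hN (List.replicate N b) List.length_replicate (fun a ha => by
    rw [List.eq_of_mem_replicate ha]
    exact hb)
  rwa [List.prod_replicate] at h1

/-- The counit is the only character of a local Hopf algebra. -/
theorem char_of_local {B : Type u} [Ring B] [HopfAlgebra k B] [Module.Finite k B]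
    (hB : IsLocalRing B) (χ : B →ₐ[k] k) (b : B) : χ b = Coalgebra.counit (R := k) b := by
  obtain ⟨N, hpow⟩ := exists_pow_zero (k := k) hB
  have h1 : Coalgebra.counit (R := k) (b - algebraMap k B (Coalgebra.counit (R := k) b)) = 0 := by
    rw [map_sub, Bialgebra.counit_algebraMap, sub_self]
  have h2 : χ (b - algebraMap k B (Coalgebra.counit (R := k) b)) ^ N = 0 := by
    rw [← map_pow, hpow _ h1, map_zero]
  have h3 := eq_zero_of_pow_eq_zero h2
  rw [map_sub, AlgHom.commutes, sub_eq_zero] at h3
  exact h3

/-- The step: finite generation passes along principal extensions. -/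
theorem fgc_principal {B C : Type u} [Ring B] [Ring C] [HopfAlgebra k B] [HopfAlgebra k C]
    [Module.Finite k B] (π : B →ₐc[k] C) (h : PrincipalExact k π) (hC : FGC k C) : FGC k B := by
  have hfC : Module.Finite k C := finite_of_surj' π h.surj
  obtain ⟨X, hk, hB | ⟨hX, hc | hχ⟩⟩ := h.ker
  · have hX : IsNilpotent X := by
      obtain ⟨N, hN⟩ := exists_pow_zero (k := k) hB
      refine ⟨N, hN X ?_⟩
      have h0 : π X = 0 := (hk X).2 ⟨1, (one_mul X).symm⟩
      rw [← CoalgHomClass.counit_comp_apply π X, h0, map_zero]
    obtain ⟨N, ⟨R⟩⟩ := Helper77.R1.exists_rdata_gen (char_of_local hB) π h.surj X hk hX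
    exact Helper77.R1.fgc_rdata R hC
  · obtain ⟨N, ⟨R⟩⟩ := Helper77.R1.exists_rdata_cen π h.surj X hk hX hc
    exact Helper77.R1.fgc_rdata R hC
  · obtain ⟨N, ⟨R⟩⟩ := Helper77.R1.exists_rdata_gen hχ π h.surj X hk hX
    exact Helper77.R1.fgc_rdata R hC

theorem finite_iter {C : Type u} [Ring C] [HopfAlgebra k C] {B : Type u} [Ring B]
    [HopfAlgebra k B] (h : IterPrincipal k C B) (hB : Module.Finite k B) : Module.Finite k C := by
  induction h with
  | refl => exact hB
  | step π hex h ih => exact ih (finite_of_surj' π hex.surj)

theorem fgc_iter {C : Type u} [Ring C] [HopfAlgebra k C] (hC : FGC k C) {B : Type u} [Ring B]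
    [HopfAlgebra k B] (h : IterPrincipal k C B) (hB : Module.Finite k B) : FGC k B := by
  induction h with
  | refl => exact hC
  | step π hex h ih => exact fgc_principal π hex (ih (finite_of_surj' π hex.surj))

end

/-- Let `B` be a finite-dimensional Hopf algebra which is obtained from a Hopf algebra `C` by finitely
many principal extensions. If `C` satisfies (fg1') and (fg2'), or `C` is semisimple, then
`Ext_B(k, k)` is a finitely generated algebra and `Ext_B(M, N)` is a finitely generated module over it
for all finite-dimensional `B`-modules `M`, `N`. -/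
theorem result (k : Type u) [Field k] (B C : Type u) [Ring B] [Ring C] [HopfAlgebra k B]
    [HopfAlgebra k C] [Module.Finite k B] (h : IterPrincipal k C B)
    (hC : FGH k C ∨ IsSemisimpleRing C) :
    Algebra.FiniteType k (⨁ n, EndExt (trivObj k B) n) ∧
    ∀ M N : ModuleCat.{u} B, Module.Finite B M → Module.Finite B N →
      Module.Finite (⨁ n, EndExt (trivObj k B) n) (⨁ n, ActExt M N n) := by
  have hfC : Module.Finite k C := finite_iter h inferInstance
  have hC' : FGC k C := by
    rcases hC with hC | hC
    · exact fgc_of_fgh hC
    · exact fgc_semisimple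
  have h1 := fgc_iter hC' h inferInstance
  exact ⟨h1.1, fun M N _ _ => finite_of_fge (fge_of_fgc h1) M N⟩

/-- Quotients of local Hopf algebras are local. -/
theorem local_of_surj {k : Type u} [Field k] {B C : Type u} [Ring B] [Ring C] [HopfAlgebra k B]
    [HopfAlgebra k C] (hB : IsLocalRing B) (π : B →ₐc[k] C) (hs : Function.Surjective π) :
    IsLocalRing C := by
  have := Helper77.R1.nontrivial_of_hopf k C
  refine ⟨fun {a b} hab => ?_⟩
  obtain ⟨a', rfl⟩ := hs a
  have hb : b = π (1 - a') := by rw [map_sub, map_one, ← hab, add_sub_cancel_left]
  rw [hb]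
  rcases IsLocalRing.isUnit_or_isUnit_of_add_one (add_sub_cancel a' 1) with h | h
  · exact Or.inl (h.map π)
  · exact Or.inr (h.map π)

theorem iter_of_series {k : Type u} [Field k] {C : Type u} [Ring C] [HopfAlgebra k C]
    {B : Type u} [Ring B] [HopfAlgebra k B] (h : PrincipalSeries k C B) (hB : IsLocalRing B) :
    IterPrincipal k C B := by
  induction h with
  | refl => exact IterPrincipal.refl
  | step π hs X hX h ih =>
    exact IterPrincipal.step π ⟨hs, X, hX, Or.inl hB⟩ (ih (local_of_surj hB π hs))

/-- Let `B` be a finite-dimensional local Hopf algebra with a sequence of surjective homomorphisms of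
Hopf algebras from `B` to `C` whose kernels are principal left ideals. If `C` satisfies (fg1') and
(fg2') then so does `B`. For `C = k` the assumption on `C` is satisfied. -/
theorem local_series (k : Type u) [Field k] (B C : Type u) [Ring B] [Ring C] [HopfAlgebra k B]
    [HopfAlgebra k C] [Module.Finite k B] (hB : IsLocalRing B) (h : PrincipalSeries k C B)
    (hC : FGH k C ∨ IsSemisimpleRing C) :
    Algebra.FiniteType k (⨁ n, EndExt (trivObj k B) n) ∧
    ∀ M N : ModuleCat.{u} B, Module.Finite B M → Module.Finite B N →
      Module.Finite (⨁ n, EndExt (trivObj k B) n) (⨁ n, ActExt M N n) :=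
  result k B C (iter_of_series h hB) hC

end Pool.Agent.Helper77.PE
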