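import Mathlib

/-!
# Quotients of manifolds by free properly discontinuous smooth actions

`f : N → M` is a surjective local homeomorphism whose fibres are the orbits of a group acting on `N`
by `C^n` maps. Then `M` (with the charted space structure pushed forward along `f`) is a `C^n`
manifold and `f` is a local diffeomorphism.
-/

open scoped ContDiff Manifold Topology
open Set Filter
noncomputable section

namespace Pool.Agent.Helper77.QuotMfd

variable {𝕜 : Type*} [NontriviallyNormedField 𝕜] {E : Type*} [NormedAddCommGroup E]
  [NormedSpace 𝕜 E] {H : Type*} [TopologicalSpace H] (I : ModelWithCorners 𝕜 E H)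
  (n : WithTop ℕ∞) {N : Type*} [TopologicalSpace N] [ChartedSpace H N] [IsManifold I n N]
  {G : Type*} [Group G] [MulAction G N] {M : Type*} [TopologicalSpace M]

omit [ChartedSpace H N] [IsManifold I n N] in
/-- a local inverse composed with `f` is locally the action of a group element -/
theorem localInverse_comp_eventually {f : N → M} (hf : IsLocalHomeomorph f)
    (hc : ∀ g : G, Continuous fun x : N => g • x) (hinv : ∀ (g : G) (x : N), f (g • x) = f x)
    (b x : N) (g : G) (hx : g • x ∈ (hf.localInverseAt b).target) :
    ∀ᶠ y in 𝓝 x, hf.localInverseAt b (f y) = g • y := by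
  have hopen : IsOpen (hf.localInverseAt b).target := (hf.localInverseAt b).open_target
  have h1 : ∀ᶠ y in 𝓝 x, g • y ∈ (hf.localInverseAt b).target :=
    (hc g).continuousAt.eventually (hopen.mem_nhds hx)
  filter_upwards [h1] with y hy
  have h2 := (hf.localInverseAt b).right_inv hy
  have h3 : (hf.localInverseAt b).symm (g • y) = f y := by
    rw [hf.localInverseAt_symm b, hinv]
  rwa [h3] at h2

section

variable {f : N → M} (hf : IsLocalHomeomorph f) {s : M → N} (hs : Function.RightInverse s f)

/-- The pushed forward charted space is a `C^n` manifold. -/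
theorem isManifold_of_group (hG : ∀ g : G, ContMDiff I I n fun x : N => g • x)
    (hinv : ∀ (g : G) (x : N), f (g • x) = f x)
    (hfib : ∀ x y : N, f x = f y → ∃ g : G, g • x = y) :
    letI := hf.chartedSpaceOfRightInverse (H := H) hs
    IsManifold I n M := by
  let _ := hf.chartedSpaceOfRightInverse (H := H) hs
  refine isManifold_of_contDiffOn I n M ?_
  rintro _ _ ⟨q, rfl⟩ ⟨q', rfl⟩ z hz
  set a := s q
  set b := s q'
  obtain ⟨hz1, hz2⟩ := hz
  set w := I.symm z with hw
  have hIw : I w = z := I.right_inv hz2
  -- unpack the source
  have hz1' : w ∈ (((hf.localInverseAt a).trans (chartAt H a)).symm.trans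
    ((hf.localInverseAt b).trans (chartAt H b))).source := hz1
  simp only [OpenPartialHomeomorph.trans_source, OpenPartialHomeomorph.symm_source,
    OpenPartialHomeomorph.trans_target, mem_inter_iff, mem_preimage] at hz1'
  obtain ⟨⟨h1, h2⟩, h3, h4⟩ := hz1'
  have hsymm : ∀ u, ((hf.localInverseAt a).trans (chartAt H a)).symm u
      = f ((chartAt H a).symm u) := by
    intro u
    rw [OpenPartialHomeomorph.coe_trans_symm, Function.comp_apply, hf.localInverseAt_symm]
  rw [hsymm] at h3 h4
  set x := (chartAt H a).symm w with hx
  have hxa : x ∈ (chartAt H a).source := (chartAt H a).map_target h1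
  have hfy : f (hf.localInverseAt b (f x)) = f x := hf.apply_localInverseAt_of_mem h3
  obtain ⟨g, hg⟩ := hfib x _ hfy.symm
  have hgt : g • x ∈ (hf.localInverseAt b).target := by
    rw [hg]; exact (hf.localInverseAt b).map_source h3
  have hev := localInverse_comp_eventually (G := G) hf (fun g => (hG g).continuous) hinv b x g hgt
  have hgb : g • x ∈ (chartAt H b).source := by rw [hg]; exact h4
  have hsm := ((contMDiffAt_iff_of_mem_source (I := I) (I' := I) (n := n) hxa hgb).1
    ((hG g).contMDiffAt (x := x))).2
  have hext : extChartAt I a x = z := by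
    rw [extChartAt_coe, Function.comp_apply, hx, (chartAt H a).right_inv h1, hIw]
  rw [hext] at hsm
  have hmem : z ∈ range I := hz2
  have hcongr : (I ∘ (((hf.localInverseAt a).trans (chartAt H a)).symm.trans
      ((hf.localInverseAt b).trans (chartAt H b))) ∘ I.symm) =ᶠ[𝓝[range I] z]
      (extChartAt I b ∘ (fun y : N => g • y) ∘ (extChartAt I a).symm) := by
    have hcont : ContinuousAt ((extChartAt I a).symm) z := by
      rw [← hext]
      exact continuousAt_extChartAt_symm' (by rwa [extChartAt_source])
    have hval : (extChartAt I a).symm z = x := by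
      rw [← hext]
      exact (extChartAt I a).left_inv (by rwa [extChartAt_source])
    have h5 : ∀ᶠ u in 𝓝 z, hf.localInverseAt b (f ((extChartAt I a).symm u))
        = g • ((extChartAt I a).symm u) := by
      rw [← hval] at hev
      exact hcont.eventually hev
    filter_upwards [mem_nhdsWithin_of_mem_nhds h5] with u hu
    simp only [Function.comp_apply, OpenPartialHomeomorph.coe_trans, hsymm]
    simp only [extChartAt_coe, extChartAt_coe_symm, Function.comp_apply] at hu ⊢
    rw [hu]
  refine (hsm.congr_of_eventuallyEq hcongr ?_).mono inter_subset_right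
  have := hcongr.self_of_nhdsWithin hmem
  exact this

/-- The projection is a local diffeomorphism. -/
theorem isLocalDiffeomorph_of_group (hG : ∀ g : G, ContMDiff I I n fun x : N => g • x)
    (hinv : ∀ (g : G) (x : N), f (g • x) = f x)
    (hfib : ∀ x y : N, f x = f y → ∃ g : G, g • x = y) :
    letI := hf.chartedSpaceOfRightInverse (H := H) hs
    IsLocalDiffeomorph I I n f := by
  let _ := hf.chartedSpaceOfRightInverse (H := H) hs
  have _ := isManifold_of_group I n hf hs hG hinv hfib
  intro x
  -- the preferred chart at `f x`
  set q := f x with hq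
  set a := s q with ha
  have hfa : f a = q := hs q
  obtain ⟨g, hg⟩ := hfib x a hfa.symm
  have hchart : chartAt H q = (hf.localInverseAt a).trans (chartAt H a) := rfl
  set T : Set N := (hf.localInverseAt a).target ∩ (chartAt H a).source with hT
  have hTo : IsOpen T := (hf.localInverseAt a).open_target.inter (chartAt H a).open_source
  have haT : a ∈ T := ⟨hf.self_mem_localInverseAt_target, mem_chart_source H a⟩
  -- `f` is smooth on `T`
  have hfsymm : ∀ u, (hf.localInverseAt a).symm u = f u := fun u => by
    rw [hf.localInverseAt_symm]
  have hLf : ∀ u ∈ (hf.localInverseAt a).target, hf.localInverseAt a (f u) = u := by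
    intro u hu
    have := (hf.localInverseAt a).right_inv hu
    rwa [hfsymm] at this
  have hfsrc : ∀ u ∈ (hf.localInverseAt a).target, f u ∈ (hf.localInverseAt a).source := by
    intro u hu
    have := (hf.localInverseAt a).map_target hu
    rwa [hfsymm] at this
  have hfT : ContMDiffOn I I n f T := by
    have h1 : ContMDiffOn I I n (chartAt H a) T :=
      (contMDiffOn_chart (I := I) (n := n) (x := a)).mono inter_subset_right
    have h2 : ContMDiffOn I I n (chartAt H q).symm (chartAt H q).target :=
      contMDiffOn_chart_symm (I := I) (n := n) (x := q)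
    have hmaps : MapsTo (chartAt H a) T (chartAt H q).target := by
      intro u hu
      rw [hchart, OpenPartialHomeomorph.trans_target]
      refine ⟨(chartAt H a).map_source hu.2, ?_⟩
      rw [mem_preimage, (chartAt H a).left_inv hu.2]
      exact hu.1
    refine (h2.comp h1 hmaps).congr ?_
    intro u hu
    rw [Function.comp_apply, hchart, OpenPartialHomeomorph.coe_trans_symm, Function.comp_apply,
      (chartAt H a).left_inv hu.2, hfsymm]
  have hLq : ContMDiffOn I I n (hf.localInverseAt a) (chartAt H q).source := by
    have h1 : ContMDiffOn I I n (chartAt H q) (chartAt H q).source :=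
      contMDiffOn_chart (I := I) (n := n) (x := q)
    have h2 : ContMDiffOn I I n (chartAt H a).symm (chartAt H a).target :=
      contMDiffOn_chart_symm (I := I) (n := n) (x := a)
    have hmaps : MapsTo (chartAt H q) (chartAt H q).source (chartAt H a).target := by
      intro u hu
      rw [hchart, OpenPartialHomeomorph.trans_source] at hu
      rw [hchart, OpenPartialHomeomorph.coe_trans, Function.comp_apply]
      exact (chartAt H a).map_source hu.2
    refine (h2.comp h1 hmaps).congr ?_
    intro u hu
    rw [hchart, OpenPartialHomeomorph.trans_source] at hu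
    rw [Function.comp_apply, hchart, OpenPartialHomeomorph.coe_trans, Function.comp_apply,
      (chartAt H a).left_inv hu.2]
  have hqs : ∀ u, u ∈ (chartAt H q).source ↔ u ∈ (hf.localInverseAt a).source ∧
      hf.localInverseAt a u ∈ (chartAt H a).source := by
    intro u
    rw [hchart, OpenPartialHomeomorph.trans_source]
    rfl
  let Φ : PartialDiffeomorph I I N M n :=
    { toFun := f
      invFun := fun y => g⁻¹ • hf.localInverseAt a y
      source := (fun u : N => g • u) ⁻¹' T
      target := (chartAt H q).source
      map_source' := by
        intro u hu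
        rw [hqs]
        have h1 : f u = f (g • u) := (hinv g u).symm
        rw [h1, hLf _ hu.1]
        exact ⟨hfsrc _ hu.1, hu.2⟩
      map_target' := by
        intro y hy
        rw [hqs] at hy
        rw [mem_preimage, smul_inv_smul]
        exact ⟨(hf.localInverseAt a).map_source hy.1, hy.2⟩
      left_inv' := by
        intro u hu
        have h1 : f u = f (g • u) := (hinv g u).symm
        rw [h1, hLf _ hu.1, inv_smul_smul]
      right_inv' := by
        intro y hy
        rw [hqs] at hy
        rw [hinv, hf.apply_localInverseAt_of_mem hy.1]
      open_source := hTo.preimage (hG g).continuous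
      open_target := (chartAt H q).open_source
      contMDiffOn_toFun := by
        have h1 : ContMDiffOn I I n (f ∘ fun u : N => g • u) ((fun u : N => g • u) ⁻¹' T) :=
          hfT.comp (hG g).contMDiffOn (fun u hu => hu)
        refine h1.congr ?_
        intro u _
        rw [Function.comp_apply, hinv]
      contMDiffOn_invFun := (hG g⁻¹).comp_contMDiffOn hLq }
  refine ⟨Φ, ?_, fun u _ => rfl⟩
  change g • x ∈ T
  rw [hg]
  exact haT

end

section quotient

variable [ProperlyDiscontinuousSMul G N] [ContinuousConstSMul G N] [IsCancelSMul G N]
  [T2Space N] [LocallyCompactSpace N]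

open MulAction

/-- The quotient of a `C^n` manifold by a free properly discontinuous group action by `C^n` maps is
a `C^n` manifold. -/
theorem quotient_isManifold (hG : ∀ g : G, ContMDiff I I n fun x : N => g • x) :
    IsManifold I n (orbitRel.Quotient G N) :=
  isManifold_of_group (G := G) I n
    (isQuotientCoveringMap_quotientMk_of_properlyDiscontinuousSMul
      (G := G) (E := N)).isCoveringMap.isLocalHomeomorph
    Quotient.mk_surjective.hasRightInverse.choose_spec hG
    (fun g x => Quotient.sound ⟨g, rfl⟩)
    (fun x y h => by
      obtain ⟨g, hg⟩ := Quotient.exact h.symm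
      exact ⟨g, hg⟩)

/-- The projection to the quotient is a local diffeomorphism. -/
theorem quotient_isLocalDiffeomorph (hG : ∀ g : G, ContMDiff I I n fun x : N => g • x) :
    IsLocalDiffeomorph I I n (Quotient.mk _ : N → orbitRel.Quotient G N) :=
  isLocalDiffeomorph_of_group (G := G) I n
    (isQuotientCoveringMap_quotientMk_of_properlyDiscontinuousSMul
      (G := G) (E := N)).isCoveringMap.isLocalHomeomorph
    Quotient.mk_surjective.hasRightInverse.choose_spec hG
    (fun g x => Quotient.sound ⟨g, rfl⟩)
    (fun x y h => by
      obtain ⟨g, hg⟩ := Quotient.exact h.symm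
      exact ⟨g, hg⟩)

end quotient

end Pool.Agent.Helper77.QuotMfd
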